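import Pool.Agent.H992.SF.Defs

/-!
# General families of eigenfunctions: definitions and interfaces (MP_a28cf0_nt)
-/

set_option autoImplicit false
open MeasureTheory Filter Topology Complex ProbabilityTheory
open scoped ContDiff ENNReal

namespace Pool.Agent.H992.SF

open Pool.Agent.W745.RW (TF)
open Pool.Agent.N661.BR (MW lin shift IsStationary IsErgodic IsRandomWave)
open Pool.Agent.N661.BH (HP area frames loc mv LocalLaws)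
open Pool.Agent.N814.BHM (P mass)
open Pool.Agent.N814.BHASM (Hyp ex)
open Pool.Agent.N40.BRSTATH (Fy)
open Pool.Agent.H992.LB (eγ eX SX nn fs)

noncomputable section

/-- the product characters -/
def eJ {d : ℕ} (τ : Fin d → ℂ →₀ ℝ) (F : Fin d → MW) : ℂ := ∏ i, eγ (τ i) (F i)

/-- the product characters of the local fields -/
def eXJ {d : ℕ} (lam : Fin d → ℝ) (u : Fin d → ℂ → ℝ) (τ : Fin d → ℂ →₀ ℝ)
    (p : ℂ × (ℝ × Bool)) : ℂ := ∏ i, eX (lam i) (u i) (τ i) p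

/-- translation by `c i * x` in the variable number `i` -/
def sh {d : ℕ} (c : Fin d → ℝ) (x : ℂ) (τ : Fin d → ℂ →₀ ℝ) : Fin d → ℂ →₀ ℝ :=
  fun i => (τ i).mapDomain (· + (c i : ℂ) * x)

/-- only the functions in `A` occur -/
def On {d : ℕ} (A : Finset (Fin d)) (τ : Fin d → ℂ →₀ ℝ) : Prop := ∀ i, i ∉ A → τ i = 0

/-- only points of `U i` occur -/
def In {d : ℕ} (U : Fin d → Set ℂ) (τ : Fin d → ℂ →₀ ℝ) : Prop :=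
  ∀ i, (↑(τ i).support : Set ℂ) ⊆ U i

/-- all ratios of frequencies converge in `[0, ∞]` -/
def Struct {d : ℕ} (lam : Fin d → ℕ → ℝ) : Prop :=
  ∀ i j, ∃ c : ℝ≥0∞, Tendsto (fun n => ENNReal.ofReal (lam j n / lam i n)) atTop (𝓝 c)

/-- admissible weights: test functions and the constant one -/
def Ad (Ω : Set ℂ) (ψ : ℂ → ℝ) : Prop := TF Ω ψ ∨ ψ = fun _ => 1

/-- the joint law of `d` independent waves -/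
def pr (d : ℕ) (γ : Measure MW) : Measure (Fin d → MW) := Measure.pi fun _ => γ

/-- the upper bound for trigonometric sums in the functions of `A`, at points of `U` -/
def Bd {d : ℕ} (Ω : Set ℂ) (lam : Fin d → ℕ → ℝ) (u : Fin d → ℕ → ℂ → ℝ) (γ : Measure MW)
    (U : Fin d → Set ℂ) (A : Finset (Fin d)) : Prop :=
  ∃ C : ℝ, ∀ (n : ℕ) (c : Fin n → ℂ) (τ : Fin n → Fin d → ℂ →₀ ℝ), (∀ m, On A (τ m)) →
    (∀ m, In U (τ m)) → ∀ ε : ℝ, 0 < ε → ∀ᶠ l in atTop,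
      ‖∑ m, c m * ∫ p, eXJ (fun i => lam i l) (fun i => u i l) (τ m) p ∂(P Ω)‖ ^ 2 ≤
        C * (∫ F, ‖∑ m, c m * eJ (τ m) F‖ ^ 2 ∂(pr d γ)) + ε

/-- the same bound in terms of the joint characteristic functions -/
def JBd {d : ℕ} (Ω : Set ℂ) (lam : Fin d → ℕ → ℝ) (u : Fin d → ℕ → ℂ → ℝ) (γ : Measure MW)
    (U : Fin d → Set ℂ) (A : Finset (Fin d)) : Prop :=
  ∃ C : ℝ, ∀ (n k : ℕ) (w : Fin d → Fin k → ℂ) (t : Fin n → Fin d → Fin k → ℝ) (c : Fin n → ℂ),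
    (∀ i j, w i j ∈ U i) → (∀ m i, i ∉ A → t m i = 0) → ∀ ε : ℝ, 0 < ε → ∀ᶠ l in atTop,
      ‖∑ m, c m * jChar Ω (fun _ => 1) (fun i => lam i l) (fun i => u i l) w (t m)‖ ^ 2 ≤
        C * (∫ F : Fin d → MW, ‖∑ m, c m *
          Complex.exp (I * ((∑ i, lin (w i) (t m i) (F i) : ℝ) : ℂ))‖ ^ 2
            ∂(Measure.pi fun _ => γ)) + ε

/-! ### Interfaces -/

/-- SG/RZ: Riesz representation -/
def S_RZ : Prop := ∀ (X : Type) (_ : MeasurableSpace X) (Γ : Measure X), IsProbabilityMeasure Γ →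
  ∀ (κ : Type) (e : κ → X → ℂ) (L : κ → ℂ) (C : ℝ), (∀ k, Measurable (e k)) →
  (∀ k x, ‖e k x‖ ≤ 1) →
  (∀ (n : ℕ) (c : Fin n → ℂ) (τ : Fin n → κ),
    ‖∑ m, c m * L (τ m)‖ ^ 2 ≤ C * ∫ x, ‖∑ m, c m * e (τ m) x‖ ^ 2 ∂Γ) →
  ∃ h : X → ℂ, MemLp h 2 Γ ∧ ∀ k, L k = ∫ x, (starRingEnd ℂ) (h x) * e k x ∂Γ

/-- SG/MIX: mixing in some of the variables -/
def S_MIX : Prop := ∀ (γ : Measure MW), IsProbabilityMeasure γ → IsRandomWave γ →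
  ∀ (d : ℕ) (c : Fin d → ℝ) (h : (Fin d → MW) → ℂ), MemLp h 2 (pr d γ) →
  ∀ τ : Fin d → ℂ →₀ ℝ, (∀ x : ℂ, ∫ F, (starRingEnd ℂ) (h F) * eJ (sh c x τ) F ∂(pr d γ) =
    ∫ F, (starRingEnd ℂ) (h F) * eJ τ F ∂(pr d γ)) →
  ∫ F, (starRingEnd ℂ) (h F) * eJ τ F ∂(pr d γ) =
    (∏ i, if c i = 0 then 1 else ∫ f, eγ (τ i) f ∂γ) *
      ∫ F, (starRingEnd ℂ) (h F) * eJ (fun i => if c i = 0 then τ i else 0) F ∂(pr d γ)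

/-- SG/FAST: the fastest function of a set -/
def S_FAST : Prop := ∀ (d : ℕ) (lam : Fin d → ℕ → ℝ), (∀ i n, 0 < lam i n) → Struct lam →
  ∀ A : Finset (Fin d), A.Nonempty → ∃ i₀ ∈ A, ∀ j ∈ A, ∃ c : ℝ,
    Tendsto (fun n => √(lam j n / lam i₀ n)) atTop (𝓝 c)

/-- SG/SUB: subsequences -/
def S_SUB : Prop := ∀ (d : ℕ) (lam : Fin d → ℕ → ℝ) (ns : ℕ → ℕ), Tendsto ns atTop atTop →
  ∃ ms : ℕ → ℕ, Tendsto (fun n => ns (ms n)) atTop atTop ∧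
    Struct fun i n => lam i (ns (ms n))

/-- SG/SLOW2: displacements at another scale -/
def S_SLOW2 : Prop := ∀ (Ω : Set ℂ) (lam : ℕ → ℝ) (u : ℕ → ℂ → ℝ), Hyp Ω lam u →
  ∀ κ : ℕ → ℝ, (∀ n, 0 < κ n) → ∀ c : ℝ, Tendsto (fun n => √(lam n / κ n)) atTop (𝓝 c) →
  ∀ ψ, TF Ω ψ → (∀ z, 0 ≤ ψ z) → ∀ x y : ℂ,
  Tendsto (fun n => ∫ z, ψ z * |u n (mv (1 / √(lam n)) y (mv (1 / √(κ n)) x z)) -
    u n (mv (1 / √(lam n)) (y + (c : ℂ) * x) z)|) atTop (𝓝 0)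

/-- SG/CLAIM2: near invariance in a fixed frame -/
def S_CLAIM2 : Prop := ∀ (d : ℕ) (Ω : Set ℂ) (lam : Fin d → ℕ → ℝ) (u : Fin d → ℕ → ℂ → ℝ),
  (∀ i, Hyp Ω (lam i) (u i)) → ∀ (i₀ : Fin d) (S : Finset (Fin d)) (c : Fin d → ℝ),
  (∀ i ∈ S, Tendsto (fun n => √(lam i n / lam i₀ n)) atTop (𝓝 (c i))) →
  ∀ ψ, TF Ω ψ → (∀ z, 0 ≤ ψ z) → ∀ (x : ℂ) (k : ℕ) (t : Fin d → Fin k → ℝ)
    (y : Fin d → Fin k → ℂ),
  Tendsto (fun n => ∫ z, (ψ z : ℂ) *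
    ((∏ i ∈ S, Fy (1 / √(lam i n)) (u i n) (t i) (fun j => y i j + (c i : ℂ) * x) z) -
      ∏ i ∈ S, Fy (1 / √(lam i n)) (u i n) (t i) (y i) z)) atTop (𝓝 0)

/-- SG/LINV2: near invariance in a random frame -/
def S_LINV2 : Prop := ∀ (d : ℕ) (Ω : Set ℂ) (lam : Fin d → ℕ → ℝ) (u : Fin d → ℕ → ℂ → ℝ),
  (∀ i, Hyp Ω (lam i) (u i)) → ∀ (i₀ : Fin d) (S : Finset (Fin d)) (c : Fin d → ℝ),
  (∀ i ∈ S, Tendsto (fun n => √(lam i n / lam i₀ n)) atTop (𝓝 (c i))) →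
  ∀ ψ, Ad Ω ψ → ∀ τ : Fin d → ℂ →₀ ℝ, On S τ → ∀ x : ℂ,
  Tendsto (fun n => ∫ p, (ψ p.1 : ℂ) * (eXJ (fun i => lam i n) (fun i => u i n) (sh c x τ) p -
    eXJ (fun i => lam i n) (fun i => u i n) τ p) ∂(P Ω)) atTop (𝓝 0)

/-- SG/CORE: limit functionals that are represented by square integrable densities -/
def S_CORE : Prop := ∀ (d : ℕ) (Ω : Set ℂ) (lam : Fin d → ℕ → ℝ) (u : Fin d → ℕ → ℂ → ℝ),
  (∀ i, Hyp Ω (lam i) (u i)) → Struct lam →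
  ∀ γ : Measure MW, IsProbabilityMeasure γ → IsRandomWave γ →
  ∀ A S : Finset (Fin d), (∀ i ∈ A, ∀ j ∈ S, Tendsto (fun n => lam j n / lam i n) atTop (𝓝 0)) →
  ∀ ψ, Ad Ω ψ → ∀ σ : Fin d → ℂ →₀ ℝ, On S σ →
  ∀ g : Ultrafilter ℕ, (g : Filter ℕ) ≤ atTop → ∀ h : (Fin d → MW) → ℂ, MemLp h 2 (pr d γ) →
  (∀ τ, On A τ → Tendsto (fun n => ∫ p, (ψ p.1 : ℂ) *
    eXJ (fun i => lam i n) (fun i => u i n) (fun i => τ i + σ i) p ∂(P Ω)) g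
      (𝓝 (∫ F, (starRingEnd ℂ) (h F) * eJ τ F ∂(pr d γ)))) →
  ∀ τ, On A τ → ∫ F, (starRingEnd ℂ) (h F) * eJ τ F ∂(pr d γ) =
    (∏ i, ∫ f, eγ (τ i) f ∂γ) * ∫ F, (starRingEnd ℂ) (h F) ∂(pr d γ)

/-- SG/JDIFF: continuity in the parameters -/
def S_JDIFF : Prop := ∀ (d : ℕ) (Ω : Set ℂ) (lam : Fin d → ℕ → ℝ) (u : Fin d → ℕ → ℂ → ℝ),
  (∀ i, Hyp Ω (lam i) (u i)) → ∀ (τ τ' : Fin d → ℂ →₀ ℝ) (ε : ℝ), 0 < ε → ∀ᶠ n in atTop,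
  ‖(∫ p, eXJ (fun i => lam i n) (fun i => u i n) τ p ∂(P Ω)) -
    ∫ p, eXJ (fun i => lam i n) (fun i => u i n) τ' p ∂(P Ω)‖ ≤ ∑ i, √(nn (τ i - τ' i)) + ε

/-- SG/EXT: from the points of `U` to all points -/
def S_EXT : Prop := ∀ (γ : Measure MW), IsProbabilityMeasure γ → IsRandomWave γ →
  ∀ (d : ℕ) (U : Fin d → Set ℂ), (∀ i, IsOpen (U i)) → (∀ i, (U i).Nonempty) →
  ∀ (A : Finset (Fin d)) (h : (Fin d → MW) → ℂ), MemLp h 2 (pr d γ) →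
  ∀ L : (Fin d → ℂ →₀ ℝ) → ℂ, (∀ τ τ', ‖L τ - L τ'‖ ≤ ∑ i, √(nn (τ i - τ' i))) →
  (∀ τ, On A τ → In U τ → L τ = ∫ F, (starRingEnd ℂ) (h F) * eJ τ F ∂(pr d γ)) →
  ∀ τ, On A τ → L τ = ∫ F, (starRingEnd ℂ) (h F) * eJ τ F ∂(pr d γ)

/-- SG/CLS: convergence for one class -/
def S_CLS : Prop := ∀ (d : ℕ) (Ω : Set ℂ) (lam : Fin d → ℕ → ℝ) (u : Fin d → ℕ → ℂ → ℝ),
  0 < d → (∀ i, Hyp Ω (lam i) (u i)) → Struct lam →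
  ∀ γ : Measure MW, IsProbabilityMeasure γ → IsRandomWave γ →
  ∀ U : Fin d → Set ℂ, (∀ i, IsOpen (U i)) → (∀ i, (U i).Nonempty) →
  ∀ A : Finset (Fin d), Bd Ω lam u γ U A → ∀ τ, On A τ →
  Tendsto (fun n => ∫ p, eXJ (fun i => lam i n) (fun i => u i n) τ p ∂(P Ω)) atTop
    (𝓝 (∏ i, ∫ f, eγ (τ i) f ∂γ))

/-- SG/PEEL2: a class is independent of slower functions -/
def S_PEEL2 : Prop := ∀ (d : ℕ) (Ω : Set ℂ) (lam : Fin d → ℕ → ℝ) (u : Fin d → ℕ → ℂ → ℝ),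
  0 < d → (∀ i, Hyp Ω (lam i) (u i)) → Struct lam →
  ∀ γ : Measure MW, IsProbabilityMeasure γ → IsRandomWave γ →
  ∀ A S : Finset (Fin d), (∀ i ∈ A, ∀ j ∈ S, Tendsto (fun n => lam j n / lam i n) atTop (𝓝 0)) →
  (∀ τ, On A τ → Tendsto (fun n => ∫ p, eXJ (fun i => lam i n) (fun i => u i n) τ p ∂(P Ω)) atTop
    (𝓝 (∏ i, ∫ f, eγ (τ i) f ∂γ))) →
  ∀ ψ, Ad Ω ψ → ∀ σ : Fin d → ℂ →₀ ℝ, On S σ → ∀ τ, On A τ →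
  Tendsto (fun n => (∫ p, (ψ p.1 : ℂ) *
      eXJ (fun i => lam i n) (fun i => u i n) (fun i => τ i + σ i) p ∂(P Ω)) -
    (∏ i, ∫ f, eγ (τ i) f ∂γ) * ∫ p, (ψ p.1 : ℂ) *
      eXJ (fun i => lam i n) (fun i => u i n) σ p ∂(P Ω)) atTop (𝓝 0)

/-- SG/ALL2: all classes -/
def S_ALL2 : Prop := ∀ (d : ℕ) (Ω : Set ℂ) (lam : Fin d → ℕ → ℝ) (u : Fin d → ℕ → ℂ → ℝ),
  0 < d → (∀ i, Hyp Ω (lam i) (u i)) → Struct lam →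
  ∀ γ : Measure MW, IsProbabilityMeasure γ → IsRandomWave γ →
  ∀ κ : Fin d → ℕ, (∀ i j, κ i < κ j → Tendsto (fun n => lam j n / lam i n) atTop (𝓝 0)) →
  (∀ a : ℕ, ∀ τ, On (Finset.univ.filter fun i => κ i = a) τ →
    Tendsto (fun n => ∫ p, eXJ (fun i => lam i n) (fun i => u i n) τ p ∂(P Ω)) atTop
      (𝓝 (∏ i, ∫ f, eγ (τ i) f ∂γ))) →
  ∀ ψ, Ad Ω ψ → ∀ τ : Fin d → ℂ →₀ ℝ,
  Tendsto (fun n => ∫ p, (ψ p.1 : ℂ) * eXJ (fun i => lam i n) (fun i => u i n) τ p ∂(P Ω)) atTop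
    (𝓝 ((∏ i, ∫ f, eγ (τ i) f ∂γ) * ∫ p, (ψ p.1 : ℂ) ∂(P Ω)))

/-- SG/GEN: arbitrary sequences of families -/
def S_GEN : Prop := ∀ (d : ℕ) (Ω : Set ℂ) (lam : Fin d → ℕ → ℝ) (u : Fin d → ℕ → ℂ → ℝ),
  0 < d → (∀ i, Hyp Ω (lam i) (u i)) →
  ∀ γ : Measure MW, IsProbabilityMeasure γ → IsRandomWave γ →
  ∀ U : Fin d → Set ℂ, (∀ i, IsOpen (U i)) → (∀ i, (U i).Nonempty) →
  ∀ κ : Fin d → ℕ, (∀ i j, κ i < κ j → Tendsto (fun n => lam j n / lam i n) atTop (𝓝 0)) →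
  (∀ a : ℕ, Bd Ω lam u γ U (Finset.univ.filter fun i => κ i = a)) →
  ∀ ψ, Ad Ω ψ → ∀ τ : Fin d → ℂ →₀ ℝ,
  Tendsto (fun n => ∫ p, (ψ p.1 : ℂ) * eXJ (fun i => lam i n) (fun i => u i n) τ p ∂(P Ω)) atTop
    (𝓝 ((∏ i, ∫ f, eγ (τ i) f ∂γ) * ∫ p, (ψ p.1 : ℂ) ∂(P Ω)))

/-- SG/BRIDGE2: the joint characteristic functions as means over random frames -/
def S_BRIDGE2 : Prop := ∀ (d : ℕ) (Ω : Set ℂ) (lam : Fin d → ℕ → ℝ) (u : Fin d → ℕ → ℂ → ℝ),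
  (∀ i, Hyp Ω (lam i) (u i)) → 0 < d → ∀ ψ, Ad Ω ψ → ∀ (k : ℕ) (w : Fin d → Fin k → ℂ)
    (t : Fin d → Fin k → ℝ), ∀ᶠ n in atTop,
  jChar Ω ψ (fun i => lam i n) (fun i => u i n) w t = (mass Ω : ℂ) * ∫ p, (ψ p.1 : ℂ) *
    eXJ (fun i => lam i n) (fun i => u i n) (fun i => fs (w i) (t i)) p ∂(P Ω)

/-- SG/BDT: translation of the bounds -/
def S_BDT : Prop := ∀ (d : ℕ) (Ω : Set ℂ) (lam : Fin d → ℕ → ℝ) (u : Fin d → ℕ → ℂ → ℝ),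
  (∀ i, Hyp Ω (lam i) (u i)) → 0 < d → ∀ γ : Measure MW, IsProbabilityMeasure γ →
  ∀ U : Fin d → Set ℂ, (∀ i, (U i).Nonempty) → ∀ A : Finset (Fin d),
  JBd Ω lam u γ U A → Bd Ω lam u γ U A

/-- SG/BCV: the converse direction -/
def S_BCV : Prop := ∀ (d : ℕ) (Ω : Set ℂ) (lam : Fin d → ℕ → ℝ) (u : Fin d → ℕ → ℂ → ℝ),
  (∀ i, Hyp Ω (lam i) (u i)) → 0 < d → ∀ γ : Measure MW, IsProbabilityMeasure γ →
  (∀ ψ, TF Ω ψ → ∀ (k : ℕ) (w : Fin d → Fin k → ℂ) (t : Fin d → Fin k → ℝ),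
    Tendsto (fun n => jChar Ω ψ (fun i => lam i n) (fun i => u i n) w t) atTop
      (𝓝 ((∏ i, ∫ f, Complex.exp (I * (lin (w i) (t i) f : ℝ)) ∂γ) *
        area Ω fun z => (ψ z : ℂ)))) →
  ∀ (U : Fin d → Set ℂ) (A : Finset (Fin d)), JBd Ω lam u γ U A

/-- SG/INV2: joint near invariance -/
def S_INV2 : Prop := ∀ (d : ℕ) (Ω : Set ℂ) (lam : Fin d → ℕ → ℝ) (u : Fin d → ℕ → ℂ → ℝ),
  (∀ i, Hyp Ω (lam i) (u i)) → ∀ (i₀ : Fin d) (c : Fin d → ℝ), ∀ ψ, TF Ω ψ →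
  ∀ (k : ℕ) (w : Fin d → Fin k → ℂ) (t : Fin d → Fin k → ℝ) (x : ℂ),
  (∀ i, t i = 0 ∨ Tendsto (fun n => √(lam i n / lam i₀ n)) atTop (𝓝 (c i))) →
  Tendsto (fun n =>
    jChar Ω ψ (fun i => lam i n) (fun i => u i n) (fun i j => w i j + (c i : ℂ) * x) t -
      jChar Ω ψ (fun i => lam i n) (fun i => u i n) w t) atTop (𝓝 0)

/-- SG/EQUIV2: the criterion for arbitrary families -/
def S_EQUIV2 : Prop := ∀ (d : ℕ) (Ω : Set ℂ) (lam : Fin (d + 1) → ℕ → ℝ)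
  (u : Fin (d + 1) → ℕ → ℂ → ℝ), (∀ i, Hyp Ω (lam i) (u i)) →
  ∀ γ : Measure MW, IsProbabilityMeasure γ → IsRandomWave γ →
  ∀ U : Fin (d + 1) → Set ℂ, (∀ i, IsOpen (U i)) → (∀ i, (U i).Nonempty) →
  ∀ κ : Fin (d + 1) → ℕ, (∀ i j, κ i < κ j → Tendsto (fun n => lam j n / lam i n) atTop (𝓝 0)) →
  ((∀ a : ℕ, JBd Ω lam u γ U (Finset.univ.filter fun i => κ i = a)) ↔
    ∀ ψ, TF Ω ψ → ∀ (k : ℕ) (w : Fin (d + 1) → Fin k → ℂ) (t : Fin (d + 1) → Fin k → ℝ),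
      Tendsto (fun n => jChar Ω ψ (fun i => lam i n) (fun i => u i n) w t) atTop
        (𝓝 ((∏ i, ∫ f, Complex.exp (I * (lin (w i) (t i) f : ℝ)) ∂γ) *
          area Ω fun z => (ψ z : ℂ))))

end

end Pool.Agent.H992.SF
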