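import Pool.Agent.H992.SF.GDefs

/-!
# General families: assembly from the interfaces
-/

set_option autoImplicit false
open MeasureTheory Filter Topology Complex ProbabilityTheory
open scoped ContDiff ENNReal

namespace Pool.Agent.H992.SF

open Pool.Agent.W745.RW (TF lap)
open Pool.Agent.N661.BR (MW lin shift IsStationary IsErgodic IsRandomWave)
open Pool.Agent.N661.BH (HP area frames loc mv LocalLaws IsQuantumErgodic)
open Pool.Agent.N814.BHASM (Hyp)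

theorem main2 (hinv : S_INV2) (hall : S_ALL) (hprod : S_PROD) (heqv : S_EQUIV2) (hval : S_VAL)
    (hmom : S_MOM) (d : ℕ) (Ω : Set ℂ)
    (lam : Fin (d + 1) → ℕ → ℝ) (u : Fin (d + 1) → ℕ → ℂ → ℝ)
    (H : ∀ i, Hyp Ω (lam i) (u i)) :
    (∀ (i₀ : Fin (d + 1)) (c : Fin (d + 1) → ℝ) (ψ : ℂ → ℝ), TF Ω ψ →
      ∀ (k : ℕ) (w : Fin (d + 1) → Fin k → ℂ) (t : Fin (d + 1) → Fin k → ℝ) (x : ℂ),
      (∀ i, t i = 0 ∨ Tendsto (fun n => √(lam i n / lam i₀ n)) atTop (𝓝 (c i))) →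
      Tendsto (fun n => jChar Ω ψ (fun i => lam i n) (fun i => u i n)
          (fun i j => w i j + (c i : ℂ) * x) t -
        jChar Ω ψ (fun i => lam i n) (fun i => u i n) w t) atTop (𝓝 0)) ∧
    ((∀ i j, i < j → Tendsto (fun n => lam j n / lam i n) atTop (𝓝 0)) →
      (∀ m : Fin d → Measure MW, (∀ i, IsProbabilityMeasure (m i)) → (∀ i, IsErgodic (m i)) →
        (∀ i : Fin d, LocalLaws Ω (lam i.castSucc) (u i.castSucc) (m i)) →
        ∀ ψ, TF Ω ψ → ∀ (k : ℕ) (w : Fin (d + 1) → Fin k → ℂ) (t : Fin (d + 1) → Fin k → ℝ),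
        Tendsto (fun n => jChar Ω ψ (fun i => lam i n) (fun i => u i n) w t -
          (∏ i : Fin d, ∫ f, Complex.exp (I * (lin (w i.castSucc) (t i.castSucc) f : ℝ)) ∂(m i)) *
            jChar Ω ψ (fun _ : Fin 1 => lam (Fin.last d) n) (fun _ => u (Fin.last d) n)
              (fun _ => w (Fin.last d)) (fun _ => t (Fin.last d))) atTop (𝓝 0)) ∧
      (∀ m : Fin (d + 1) → Measure MW, (∀ i, IsProbabilityMeasure (m i)) →
        (∀ i, IsErgodic (m i)) → (∀ i, LocalLaws Ω (lam i) (u i) (m i)) →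
        ∀ ψ, TF Ω ψ → ∀ (k : ℕ) (w : Fin (d + 1) → Fin k → ℂ) (t : Fin (d + 1) → Fin k → ℝ),
        Tendsto (fun n => jChar Ω ψ (fun i => lam i n) (fun i => u i n) w t) atTop
          (𝓝 ((∏ i, ∫ f, Complex.exp (I * (lin (w i) (t i) f : ℝ)) ∂(m i)) *
            area Ω fun z => (ψ z : ℂ))))) ∧
    ∀ γ : Measure MW, IsProbabilityMeasure γ → IsRandomWave γ →
      ∀ U : Fin (d + 1) → Set ℂ, (∀ i, IsOpen (U i)) → (∀ i, (U i).Nonempty) →
      ∀ κ : Fin (d + 1) → ℕ,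
      (∀ i j, κ i < κ j → Tendsto (fun n => lam j n / lam i n) atTop (𝓝 0)) →
      ((∀ a : ℕ, ∃ C : ℝ, ∀ (n k : ℕ) (w : Fin (d + 1) → Fin k → ℂ)
          (t : Fin n → Fin (d + 1) → Fin k → ℝ) (c : Fin n → ℂ),
          (∀ i j, w i j ∈ U i) → (∀ m i, κ i ≠ a → t m i = 0) → ∀ ε : ℝ, 0 < ε → ∀ᶠ l in atTop,
            ‖∑ m, c m * jChar Ω (fun _ => 1) (fun i => lam i l) (fun i => u i l) w (t m)‖ ^ 2 ≤
              C * (∫ F : Fin (d + 1) → MW, ‖∑ m, c m *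
                Complex.exp (I * ((∑ i, lin (w i) (t m i) (F i) : ℝ) : ℂ))‖ ^ 2
                  ∂(Measure.pi fun _ => γ)) + ε) ↔
        ∀ ψ, TF Ω ψ → ∀ (k : ℕ) (w : Fin (d + 1) → Fin k → ℂ) (t : Fin (d + 1) → Fin k → ℝ),
          Tendsto (fun n => jChar Ω ψ (fun i => lam i n) (fun i => u i n) w t) atTop
            (𝓝 ((∏ i, ∫ f, Complex.exp (I * (lin (w i) (t i) f : ℝ)) ∂γ) *
              area Ω fun z => (ψ z : ℂ)))) ∧
      ((∀ a : ℕ, ∃ C : ℝ, ∀ (n k : ℕ) (w : Fin (d + 1) → Fin k → ℂ)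
          (t : Fin n → Fin (d + 1) → Fin k → ℝ) (c : Fin n → ℂ),
          (∀ i j, w i j ∈ U i) → (∀ m i, κ i ≠ a → t m i = 0) → ∀ ε : ℝ, 0 < ε → ∀ᶠ l in atTop,
            ‖∑ m, c m * jChar Ω (fun _ => 1) (fun i => lam i l) (fun i => u i l) w (t m)‖ ^ 2 ≤
              C * (∫ F : Fin (d + 1) → MW, ‖∑ m, c m *
                Complex.exp (I * ((∑ i, lin (w i) (t m i) (F i) : ℝ) : ℂ))‖ ^ 2
                  ∂(Measure.pi fun _ => γ)) + ε) →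
        ∀ ψ, TF Ω ψ → (∀ z, 0 ≤ ψ z) → ∀ a : Fin (d + 1) → ℕ,
          (∃ q C : ℝ, (∑ i, a i : ℕ) < q ∧ ∀ i, ∀ᶠ n in atTop,
            ∫ z in Ω, ψ z / z.im ^ 2 * |u i n z| ^ q ≤ C) →
          Tendsto (fun n => ∫ z in Ω, ψ z / z.im ^ 2 * ∏ i, u i n z ^ a i) atTop
            (𝓝 ((∏ i, ∫ x, x ^ a i ∂(gaussianReal 0 1)) * ∫ z in Ω, ψ z / z.im ^ 2))) := by
  refine ⟨fun i₀ c ψ hψ k w t x ht => hinv _ Ω lam u H i₀ c ψ hψ k w t x ht,
    fun hsep => ⟨fun m hm he hL ψ hψ k w t => hall d Ω lam u H hsep m hm he hL ψ hψ k w t,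
      fun m hm he hL ψ hψ k w t => hprod d Ω lam u H hsep m hm he hL ψ hψ k w t⟩,
    fun γ hγp hγ U hU hne κ hκ => ?_⟩
  have key : ∀ a : ℕ, JBd Ω lam u γ U (Finset.univ.filter fun i => κ i = a) ↔
      ∃ C : ℝ, ∀ (n k : ℕ) (w : Fin (d + 1) → Fin k → ℂ)
          (t : Fin n → Fin (d + 1) → Fin k → ℝ) (c : Fin n → ℂ),
          (∀ i j, w i j ∈ U i) → (∀ m i, κ i ≠ a → t m i = 0) → ∀ ε : ℝ, 0 < ε → ∀ᶠ l in atTop,
            ‖∑ m, c m * jChar Ω (fun _ => 1) (fun i => lam i l) (fun i => u i l) w (t m)‖ ^ 2 ≤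
              C * (∫ F : Fin (d + 1) → MW, ‖∑ m, c m *
                Complex.exp (I * ((∑ i, lin (w i) (t m i) (F i) : ℝ) : ℂ))‖ ^ 2
                  ∂(Measure.pi fun _ => γ)) + ε := by
    intro a
    have h0 : ∀ i : Fin (d + 1), i ∉ (Finset.univ.filter fun i => κ i = a) ↔ κ i ≠ a := by
      intro i
      simp
    unfold JBd
    simp only [h0]
  have e1 := heqv d Ω lam u H γ hγp hγ U hU hne κ hκ
  simp only [key] at e1
  refine ⟨e1, fun hb ψ hψ h0 a ha => ?_⟩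
  have h1 := e1.1 hb ψ hψ
  have h2 := hval (d + 1) Ω lam u γ hγp hγ ψ h1
  exact hmom (d + 1) Ω u (H 0).op (H 0).sub
    (fun i n => (((H i).sm n).mono (H 0).sub).continuousOn) ψ hψ h0 a h2 ha

end Pool.Agent.H992.SF
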