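import Pool.Agent.H992.SF.GDefs
import Pool.Agent.H289.SF.Peel
import Pool.Agent.H385.SF.Abs

/-!
# A class is independent of slower functions (after Pool.Agent.H161.JM.JPEEL by helper161)
-/

set_option autoImplicit false
open MeasureTheory Filter Topology Complex ProbabilityTheory
open scoped ContDiff ENNReal

namespace Pool.Agent.H992.SF.PL

open Pool.Agent.W745.RW (TF)
open Pool.Agent.N661.BR (MW IsRandomWave)
open Pool.Agent.N661.BH (HP)
open Pool.Agent.N814.BHM (P mass)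
open Pool.Agent.N814.BHASM (Hyp probP)
open Pool.Agent.H992.LB (eγ eX eX_norm eX_meas eγ_norm eγ_meas)
open Pool.Agent.H992.SF
open Pool.Agent.H289.SF (sA sA_eX)
open Pool.Agent.H385.SF (E E_sub E_zero E_vh vh)

noncomputable section

variable {d : ℕ}

/-! ### Algebra of the characters -/

theorem eX_E (lam : ℝ) (u : ℂ → ℝ) (τ : ℂ →₀ ℝ) (p : ℂ × (ℝ × Bool)) :
    eX lam u τ p = E (sA lam u p) τ := (sA_eX lam u τ p).symm

theorem E_add (a : (ℂ →₀ ℝ) →+ ℝ) (τ τ' : ℂ →₀ ℝ) : E a (τ + τ') = E a τ * E a τ' := by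
  unfold E
  rw [← Complex.exp_add, map_add]
  congr 1
  push_cast
  ring

theorem eXJ_norm (lam : Fin d → ℝ) (u : Fin d → ℂ → ℝ) (τ : Fin d → ℂ →₀ ℝ)
    (p : ℂ × (ℝ × Bool)) : ‖eXJ lam u τ p‖ = 1 := by
  unfold eXJ
  rw [norm_prod]
  exact Finset.prod_eq_one fun i _ => eX_norm _ _ _ p

theorem eXJ_meas {lam : Fin d → ℝ} {u : Fin d → ℂ → ℝ} (hu : ∀ i, ContDiffOn ℝ ∞ (u i) HP)
    (τ : Fin d → ℂ →₀ ℝ) : Measurable (eXJ lam u τ) := by
  unfold eXJ
  exact Finset.measurable_fun_prod _ fun i _ => eX_meas (hu i) _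

theorem eXJ_add (lam : Fin d → ℝ) (u : Fin d → ℂ → ℝ) (τ σ : Fin d → ℂ →₀ ℝ)
    (p : ℂ × (ℝ × Bool)) :
    eXJ lam u (fun i => τ i + σ i) p = eXJ lam u τ p * eXJ lam u σ p := by
  unfold eXJ
  rw [← Finset.prod_mul_distrib]
  refine Finset.prod_congr rfl fun i _ => ?_
  rw [eX_E, eX_E, eX_E, E_add]

theorem eXJ_sub (lam : Fin d → ℝ) (u : Fin d → ℂ → ℝ) (τ σ : Fin d → ℂ →₀ ℝ)
    (p : ℂ × (ℝ × Bool)) :
    eXJ lam u (fun i => τ i - σ i) p = eXJ lam u τ p * (starRingEnd ℂ) (eXJ lam u σ p) := by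
  unfold eXJ
  rw [map_prod, ← Finset.prod_mul_distrib]
  refine Finset.prod_congr rfl fun i _ => ?_
  rw [eX_E, eX_E, eX_E, E_sub]

theorem eJ_norm (τ : Fin d → ℂ →₀ ℝ) (F : Fin d → MW) : ‖eJ τ F‖ = 1 := by
  unfold eJ
  rw [norm_prod]
  exact Finset.prod_eq_one fun i _ => eγ_norm _ _

theorem eJ_meas (τ : Fin d → ℂ →₀ ℝ) : Measurable (eJ τ) := by
  unfold eJ
  exact Finset.measurable_fun_prod _ fun i _ => (eγ_meas (τ i)).comp (measurable_pi_apply i)

theorem eJ_zero (F : Fin d → MW) : eJ (0 : Fin d → ℂ →₀ ℝ) F = 1 := by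
  unfold eJ
  refine Finset.prod_eq_one fun i _ => ?_
  show eγ 0 (F i) = 1
  rw [← E_vh, E_zero]

theorem eJ_sub (τ σ : Fin d → ℂ →₀ ℝ) (F : Fin d → MW) :
    eJ (fun i => τ i - σ i) F = eJ τ F * (starRingEnd ℂ) (eJ σ F) := by
  unfold eJ
  rw [map_prod, ← Finset.prod_mul_distrib]
  refine Finset.prod_congr rfl fun i _ => ?_
  rw [← E_vh, ← E_vh, ← E_vh, E_sub]

theorem int_eJ (γ : Measure MW) [IsProbabilityMeasure γ] (τ : Fin d → ℂ →₀ ℝ) :
    ∫ F, eJ τ F ∂(pr d γ) = ∏ i, ∫ f, eγ (τ i) f ∂γ := by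
  unfold eJ pr
  exact integral_fintype_prod_eq_prod (𝕜 := ℂ) (fun i => eγ (τ i))

/-! ### Squares -/

theorem sq_sum {n : ℕ} (c a : Fin n → ℂ) : ((‖∑ m, c m * a m‖ ^ 2 : ℝ) : ℂ) =
    ∑ m, ∑ m', (c m * (starRingEnd ℂ) (c m')) * (a m * (starRingEnd ℂ) (a m')) := by
  rw [← Complex.normSq_eq_norm_sq, ← Complex.mul_conj, map_sum, Finset.sum_mul_sum]
  refine Finset.sum_congr rfl fun m _ => Finset.sum_congr rfl fun m' _ => ?_
  rw [map_mul]
  ring

/-- the weighted Cauchy–Schwarz inequality -/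
theorem wcs {X : Type*} [MeasurableSpace X] (μ : Measure X) (w s : X → ℝ) (hw : ∀ x, 0 ≤ w x)
    (h0 : Integrable w μ) (h1 : Integrable (fun x => w x * s x) μ)
    (h2 : Integrable (fun x => w x * s x ^ 2) μ) :
    (∫ x, w x * s x ∂μ) ^ 2 ≤ (∫ x, w x ∂μ) * ∫ x, w x * s x ^ 2 ∂μ := by
  have key : ∀ t : ℝ, 0 ≤ (∫ x, w x ∂μ) * (t * t) + (-2 * ∫ x, w x * s x ∂μ) * t +
      ∫ x, w x * s x ^ 2 ∂μ := by
    intro t
    have e1 : 0 ≤ ∫ x, (w x * (t * t) + (w x * s x) * (-2 * t) + w x * s x ^ 2) ∂μ := by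
      refine integral_nonneg fun x => ?_
      have e2 : w x * (t * t) + (w x * s x) * (-2 * t) + w x * s x ^ 2 = w x * (s x - t) ^ 2 := by
        ring
      show 0 ≤ w x * (t * t) + (w x * s x) * (-2 * t) + w x * s x ^ 2
      rw [e2]
      exact mul_nonneg (hw x) (sq_nonneg _)
    have i1 : Integrable (fun x => w x * (t * t) + (w x * s x) * (-2 * t)) μ :=
      (h0.mul_const _).add (h1.mul_const _)
    rw [integral_add i1 h2, integral_add (h0.mul_const _) (h1.mul_const _), integral_mul_const,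
      integral_mul_const] at e1
    linarith
  have hd := discrim_le_zero key
  unfold discrim at hd
  nlinarith

/-- the general version -/
theorem gen (h1 : S_RZ) (h2 : S_CORE) (Ω : Set ℂ) (lam : Fin d → ℕ → ℝ) (u : Fin d → ℕ → ℂ → ℝ)
    (hd : 0 < d) (H : ∀ i, Hyp Ω (lam i) (u i)) (hst : Struct lam) (γ : Measure MW)
    (hγp : IsProbabilityMeasure γ) (hγ : IsRandomWave γ) (A S : Finset (Fin d))
    (hAS : ∀ i ∈ A, ∀ j ∈ S, Tendsto (fun n => lam j n / lam i n) atTop (𝓝 0))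
    (ψ : ℂ → ℝ) (hψ' : Measurable ψ) (Cψ : ℝ) (hCψ : ∀ z, ‖ψ z‖ ≤ Cψ) (hψ0 : ∀ z, 0 ≤ ψ z)
    (hconv : ∀ τ, On A τ → Tendsto (fun n => ∫ p, (ψ p.1 : ℂ) *
      eXJ (fun i => lam i n) (fun i => u i n) τ p ∂(P Ω)) atTop
        (𝓝 ((∏ i, ∫ f, eγ (τ i) f ∂γ) * ∫ p, (ψ p.1 : ℂ) ∂(P Ω))))
    (χ : ℂ → ℝ) (hχ' : Measurable χ) (Cχ : ℝ) (hCχ : ∀ z, ‖χ z‖ ≤ Cχ) (hχ : Ad Ω χ)
    (K : ℝ) (hK : ∀ z, |χ z| ≤ K * ψ z) (σ : Fin d → ℂ →₀ ℝ) (hσ : On S σ)
    (τ₀ : Fin d → ℂ →₀ ℝ) (hτ₀ : On A τ₀) :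
    Tendsto (fun n => (∫ p, (χ p.1 : ℂ) *
        eXJ (fun i => lam i n) (fun i => u i n) (fun i => τ₀ i + σ i) p ∂(P Ω)) -
      (∏ i, ∫ f, eγ (τ₀ i) f ∂γ) * ∫ p, (χ p.1 : ℂ) *
        eXJ (fun i => lam i n) (fun i => u i n) σ p ∂(P Ω)) atTop (𝓝 0) := by
  have hPr := probP (H ⟨0, hd⟩)
  have hpr : IsProbabilityMeasure (pr d γ) := by
    unfold pr
    infer_instance
  -- measurability and bounds of the weights
  have hψm : Measurable fun p : ℂ × (ℝ × Bool) => ψ p.1 := hψ'.comp measurable_fst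
  have hχm : Measurable fun p : ℂ × (ℝ × Bool) => χ p.1 := hχ'.comp measurable_fst
  have hψi : Integrable (fun p : ℂ × (ℝ × Bool) => ψ p.1) (P Ω) :=
    Integrable.of_bound hψm.aestronglyMeasurable Cψ (Eventually.of_forall fun p => hCψ _)
  have hXm : ∀ (τ : Fin d → ℂ →₀ ℝ) (n : ℕ),
      Measurable (eXJ (fun i => lam i n) (fun i => u i n) τ) := fun τ n =>
    eXJ_meas (fun i => (H i).sm n) τ
  have hψX : ∀ (τ : Fin d → ℂ →₀ ℝ) (n : ℕ), Integrable (fun p => (ψ p.1 : ℂ) *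
      eXJ (fun i => lam i n) (fun i => u i n) τ p) (P Ω) := fun τ n =>
    Integrable.of_bound ((Complex.measurable_ofReal.comp hψm).mul (hXm τ n)).aestronglyMeasurable
      Cψ (Eventually.of_forall fun p => by
        rw [norm_mul, eXJ_norm, mul_one, Complex.norm_real]
        exact hCψ _)
  have hχX : ∀ (τ : Fin d → ℂ →₀ ℝ) (n : ℕ), Integrable (fun p => (χ p.1 : ℂ) *
      eXJ (fun i => lam i n) (fun i => u i n) τ p) (P Ω) := fun τ n =>
    Integrable.of_bound ((Complex.measurable_ofReal.comp hχm).mul (hXm τ n)).aestronglyMeasurable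
      Cχ (Eventually.of_forall fun p => by
        rw [norm_mul, eXJ_norm, mul_one, Complex.norm_real]
        exact hCχ _)
  rw [tendsto_iff_ultrafilter]
  intro g hg
  set Gn : (Fin d → ℂ →₀ ℝ) → ℕ → ℂ := fun τ n => ∫ p, (χ p.1 : ℂ) *
    eXJ (fun i => lam i n) (fun i => u i n) (fun i => τ i + σ i) p ∂(P Ω) with hGn
  have hGb : ∀ τ n, ‖Gn τ n‖ ≤ Cχ := by
    intro τ n
    refine (norm_integral_le_of_norm_le (integrable_const Cχ)
      (Eventually.of_forall fun p => ?_)).trans ?_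
    · rw [norm_mul, eXJ_norm, mul_one, Complex.norm_real]
      exact hCχ _
    · simp
  -- the limits along the ultrafilter
  have hlim : ∀ τ : Fin d → ℂ →₀ ℝ, ∃ L : ℂ, Tendsto (Gn τ) g (𝓝 L) := by
    intro τ
    have h1 : (g.map (Gn τ) : Filter ℂ) ≤ 𝓟 (Metric.closedBall (0:ℂ) Cχ) := by
      rw [Filter.le_principal_iff, Ultrafilter.coe_map, Filter.mem_map]
      refine Filter.univ_mem' fun n => ?_
      rw [Set.mem_preimage, mem_closedBall_zero_iff]
      exact hGb τ n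
    obtain ⟨L, -, hL⟩ := (isCompact_closedBall (0:ℂ) Cχ).ultrafilter_le_nhds _ h1
    exact ⟨L, hL⟩
  choose L hL using hlim
  set m₀ : ℝ := ∫ p, ψ p.1 ∂(P Ω) with hm₀
  have hm₀c : (∫ p, (ψ p.1 : ℂ) ∂(P Ω)) = (m₀ : ℂ) := by
    rw [hm₀, ← integral_complex_ofReal]
  -- the bound
  have hbound : ∀ (n : ℕ) (c : Fin n → ℂ) (τ : Fin n → {τ : Fin d → ℂ →₀ ℝ // On A τ}),
      ‖∑ m, c m * L (τ m).1‖ ^ 2 ≤
        K ^ 2 * m₀ ^ 2 * ∫ F, ‖∑ m, c m * eJ (τ m).1 F‖ ^ 2 ∂(pr d γ) := by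
    intro n c τ
    have t1 : Tendsto (fun l => ‖∑ m, c m * Gn (τ m).1 l‖ ^ 2) g
        (𝓝 (‖∑ m, c m * L (τ m).1‖ ^ 2)) := by
      refine Tendsto.pow (Tendsto.norm ?_) 2
      exact tendsto_finsetSum _ fun m _ => (hL _).const_mul _
    set s : ℕ → ℂ × (ℝ × Bool) → ℝ := fun l p => ‖∑ m, c m *
      eXJ (fun i => lam i l) (fun i => u i l) (τ m).1 p‖ with hs
    have hsm : ∀ l, Measurable (s l) := fun l =>
      (Finset.measurable_fun_sum _ fun m _ => (hXm (τ m).1 l).const_mul (c m)).norm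
    have hsb : ∀ l p, s l p ≤ ∑ m, ‖c m‖ := by
      intro l p
      refine (norm_sum_le _ _).trans (Finset.sum_le_sum fun m _ => ?_)
      rw [norm_mul, eXJ_norm, mul_one]
    have hs0 : ∀ l p, 0 ≤ s l p := fun l p => norm_nonneg _
    have hi1 : ∀ l, Integrable (fun p => ψ p.1 * s l p) (P Ω) := fun l =>
      Integrable.of_bound (hψm.mul (hsm l)).aestronglyMeasurable (Cψ * ∑ m, ‖c m‖)
        (Eventually.of_forall fun p => by
          rw [norm_mul]
          refine mul_le_mul (hCψ _) ?_ (norm_nonneg _) ((norm_nonneg _).trans (hCψ p.1))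
          rw [Real.norm_eq_abs, abs_of_nonneg (hs0 l p)]
          exact hsb l p)
    have hi2 : ∀ l, Integrable (fun p => ψ p.1 * s l p ^ 2) (P Ω) := fun l =>
      Integrable.of_bound (hψm.mul ((hsm l).pow_const 2)).aestronglyMeasurable
        (Cψ * (∑ m, ‖c m‖) ^ 2)
        (Eventually.of_forall fun p => by
          rw [norm_mul]
          refine mul_le_mul (hCψ _) ?_ (norm_nonneg _) ((norm_nonneg _).trans (hCψ p.1))
          rw [Real.norm_eq_abs, abs_of_nonneg (by positivity)]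
          exact pow_le_pow_left₀ (hs0 l p) (hsb l p) 2)
    -- the pre-limit inequality
    have t2 : ∀ l, ‖∑ m, c m * Gn (τ m).1 l‖ ^ 2 ≤ K ^ 2 * (m₀ * ∫ p, ψ p.1 * s l p ^ 2 ∂(P Ω)) := by
      intro l
      have e1 : ∑ m, c m * Gn (τ m).1 l = ∫ p, (χ p.1 : ℂ) * ((∑ m, c m *
          eXJ (fun i => lam i l) (fun i => u i l) (τ m).1 p) *
          eXJ (fun i => lam i l) (fun i => u i l) σ p) ∂(P Ω) := by
        have e2 : ∀ p, (χ p.1 : ℂ) * ((∑ m, c m *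
            eXJ (fun i => lam i l) (fun i => u i l) (τ m).1 p) *
            eXJ (fun i => lam i l) (fun i => u i l) σ p) = ∑ m, c m * ((χ p.1 : ℂ) *
              eXJ (fun i => lam i l) (fun i => u i l) (fun i => (τ m).1 i + σ i) p) := by
          intro p
          rw [Finset.sum_mul, Finset.mul_sum]
          refine Finset.sum_congr rfl fun m _ => ?_
          rw [eXJ_add]
          ring
        simp_rw [e2]
        rw [integral_finsetSum _ fun m _ => (hχX _ l).const_mul _]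
        exact Finset.sum_congr rfl fun m _ => (integral_const_mul _ _).symm
      have e3 : ‖∑ m, c m * Gn (τ m).1 l‖ ≤ K * ∫ p, ψ p.1 * s l p ∂(P Ω) := by
        rw [e1, ← integral_const_mul]
        refine norm_integral_le_of_norm_le ((hi1 l).const_mul K)
          (Eventually.of_forall fun p => ?_)
        rw [norm_mul, norm_mul, eXJ_norm, mul_one, Complex.norm_real, Real.norm_eq_abs,
          ← mul_assoc]
        exact mul_le_mul_of_nonneg_right (hK _) (norm_nonneg _)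
      calc ‖∑ m, c m * Gn (τ m).1 l‖ ^ 2 ≤ (K * ∫ p, ψ p.1 * s l p ∂(P Ω)) ^ 2 :=
            pow_le_pow_left₀ (norm_nonneg _) e3 2
        _ = K ^ 2 * (∫ p, ψ p.1 * s l p ∂(P Ω)) ^ 2 := by ring
        _ ≤ K ^ 2 * (m₀ * ∫ p, ψ p.1 * s l p ^ 2 ∂(P Ω)) :=
            mul_le_mul_of_nonneg_left (wcs (P Ω) (fun p => ψ p.1) (s l) (fun p => hψ0 _) hψi
              (hi1 l) (hi2 l)) (sq_nonneg K)
    -- the limit of the right side
    have t3 : Tendsto (fun l => ∫ p, ψ p.1 * s l p ^ 2 ∂(P Ω)) atTop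
        (𝓝 (m₀ * ∫ F, ‖∑ m, c m * eJ (τ m).1 F‖ ^ 2 ∂(pr d γ))) := by
      have e1 : ∀ l, ((∫ p, ψ p.1 * s l p ^ 2 ∂(P Ω) : ℝ) : ℂ) = ∑ m, ∑ m',
          (c m * (starRingEnd ℂ) (c m')) * ∫ p, (ψ p.1 : ℂ) * eXJ (fun i => lam i l)
            (fun i => u i l) (fun i => (τ m).1 i - (τ m').1 i) p ∂(P Ω) := by
        intro l
        rw [← integral_complex_ofReal]
        have e2 : ∀ p, ((ψ p.1 * s l p ^ 2 : ℝ) : ℂ) = ∑ m, ∑ m',
            (c m * (starRingEnd ℂ) (c m')) * ((ψ p.1 : ℂ) * eXJ (fun i => lam i l)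
              (fun i => u i l) (fun i => (τ m).1 i - (τ m').1 i) p) := by
          intro p
          rw [Complex.ofReal_mul, hs, sq_sum, Finset.mul_sum]
          refine Finset.sum_congr rfl fun m _ => ?_
          rw [Finset.mul_sum]
          refine Finset.sum_congr rfl fun m' _ => ?_
          rw [eXJ_sub]
          ring
        simp_rw [e2]
        rw [integral_finsetSum _ fun m _ => integrable_finsetSum _ fun m' _ =>
          (hψX _ l).const_mul _]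
        refine Finset.sum_congr rfl fun m _ => ?_
        rw [integral_finsetSum _ fun m' _ => (hψX _ l).const_mul _]
        exact Finset.sum_congr rfl fun m' _ => integral_const_mul _ _
      have e3 : ((m₀ * ∫ F, ‖∑ m, c m * eJ (τ m).1 F‖ ^ 2 ∂(pr d γ) : ℝ) : ℂ) = ∑ m, ∑ m',
          (c m * (starRingEnd ℂ) (c m')) * ((∏ i, ∫ f, eγ ((τ m).1 i - (τ m').1 i) f ∂γ) *
            (m₀ : ℂ)) := by
        have hJi : ∀ τ : Fin d → ℂ →₀ ℝ, Integrable (eJ τ) (pr d γ) := fun τ =>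
          Integrable.of_bound (eJ_meas τ).aestronglyMeasurable 1
            (Eventually.of_forall fun F => (eJ_norm τ F).le)
        have e4 : ((∫ F, ‖∑ m, c m * eJ (τ m).1 F‖ ^ 2 ∂(pr d γ) : ℝ) : ℂ) = ∑ m, ∑ m',
            (c m * (starRingEnd ℂ) (c m')) * ∏ i, ∫ f, eγ ((τ m).1 i - (τ m').1 i) f ∂γ := by
          rw [← integral_complex_ofReal]
          have e5 : ∀ F, ((‖∑ m, c m * eJ (τ m).1 F‖ ^ 2 : ℝ) : ℂ) = ∑ m, ∑ m',
              (c m * (starRingEnd ℂ) (c m')) * eJ (fun i => (τ m).1 i - (τ m').1 i) F := by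
            intro F
            rw [sq_sum]
            refine Finset.sum_congr rfl fun m _ => Finset.sum_congr rfl fun m' _ => ?_
            rw [eJ_sub]
          simp_rw [e5]
          rw [integral_finsetSum _ fun m _ => integrable_finsetSum _ fun m' _ =>
            (hJi _).const_mul _]
          refine Finset.sum_congr rfl fun m _ => ?_
          rw [integral_finsetSum _ fun m' _ => (hJi _).const_mul _]
          refine Finset.sum_congr rfl fun m' _ => ?_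
          rw [integral_const_mul, int_eJ]
        rw [Complex.ofReal_mul, e4, Finset.mul_sum]
        refine Finset.sum_congr rfl fun m _ => ?_
        rw [Finset.mul_sum]
        exact Finset.sum_congr rfl fun m' _ => by ring
      have e6 : Tendsto (fun l => ((∫ p, ψ p.1 * s l p ^ 2 ∂(P Ω) : ℝ) : ℂ)) atTop
          (𝓝 ((m₀ * ∫ F, ‖∑ m, c m * eJ (τ m).1 F‖ ^ 2 ∂(pr d γ) : ℝ) : ℂ)) := by
        rw [e3]
        simp_rw [e1]
        refine tendsto_finsetSum _ fun m _ => tendsto_finsetSum _ fun m' _ =>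
          Tendsto.const_mul _ ?_
        have e7 := hconv (fun i => (τ m).1 i - (τ m').1 i) (fun i hi => by
          show (τ m).1 i - (τ m').1 i = 0
          rw [(τ m).2 i hi, (τ m').2 i hi, sub_zero])
        rw [hm₀c] at e7
        exact e7
      exact (Complex.continuous_re.tendsto _).comp e6
    have t4 : Tendsto (fun l => K ^ 2 * (m₀ * ∫ p, ψ p.1 * s l p ^ 2 ∂(P Ω))) g
        (𝓝 (K ^ 2 * (m₀ * (m₀ * ∫ F, ‖∑ m, c m * eJ (τ m).1 F‖ ^ 2 ∂(pr d γ))))) :=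
      ((t3.mono_left hg).const_mul m₀).const_mul (K ^ 2)
    refine (le_of_tendsto_of_tendsto t1 t4 (Eventually.of_forall t2)).trans (le_of_eq ?_)
    ring
  obtain ⟨h, hh, hrep⟩ := h1 (Fin d → MW) inferInstance (pr d γ) hpr
    {τ : Fin d → ℂ →₀ ℝ // On A τ} (fun k => eJ k.1) (fun k => L k.1) (K ^ 2 * m₀ ^ 2)
    (fun k => eJ_meas k.1) (fun k x => (eJ_norm k.1 x).le) hbound
  have hcore := h2 d Ω lam u H hst γ hγp hγ A S hAS χ hχ σ hσ g hg h hh (by
    intro τ hτ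
    rw [← hrep ⟨τ, hτ⟩]
    exact hL τ) τ₀ hτ₀
  have hz : On A (0 : Fin d → ℂ →₀ ℝ) := fun i _ => rfl
  have hone : ∫ F, (starRingEnd ℂ) (h F) ∂(pr d γ) = L 0 := by
    rw [hrep ⟨0, hz⟩]
    refine integral_congr_ae (Eventually.of_forall fun F => ?_)
    simp only [eJ_zero, mul_one]
  have hL0 : Tendsto (fun n => ∫ p, (χ p.1 : ℂ) *
      eXJ (fun i => lam i n) (fun i => u i n) σ p ∂(P Ω)) g (𝓝 (L 0)) := by
    refine (hL 0).congr fun n => ?_
    have e : (fun i => (0 : Fin d → ℂ →₀ ℝ) i + σ i) = σ := funext fun i => zero_add _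
    rw [hGn]
    simp only [e]
  rw [hone, ← hrep ⟨τ₀, hτ₀⟩] at hcore
  have hfin := (hL τ₀).sub (hL0.const_mul (∏ i, ∫ f, eγ (τ₀ i) f ∂γ))
  have e0 : L τ₀ - (∏ i, ∫ f, eγ (τ₀ i) f ∂γ) * L 0 = 0 := sub_eq_zero.2 hcore
  rw [e0] at hfin
  exact hfin

theorem peel2 (h1 : S_RZ) (h2 : S_CORE) : S_PEEL2 := by
  intro d Ω lam u hd H hst γ hγp hγ A S hAS hconv ψ hψ σ hσ τ hτ
  have hPr := probP (H ⟨0, hd⟩)
  have hb : Measurable ψ ∧ ∃ C : ℝ, ∀ z, ‖ψ z‖ ≤ C := by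
    rcases hψ with hψ | rfl
    · exact ⟨hψ.1.continuous.measurable, hψ.1.continuous.bounded_above_of_compact_support hψ.2.1⟩
    · exact ⟨measurable_const, 1, fun z => by simp⟩
  obtain ⟨hm, C, hC⟩ := hb
  refine gen h1 h2 Ω lam u hd H hst γ hγp hγ A S hAS (fun _ => 1) measurable_const 1
    (fun z => by simp) (fun z => zero_le_one) (fun τ hτ => ?_) ψ hm C hC hψ C
    (fun z => by rw [mul_one]; exact hC z) σ hσ τ hτ
  have h3 := hconv τ hτ
  have e1 : ∫ p : ℂ × (ℝ × Bool), (((fun _ => (1:ℝ)) p.1 : ℝ) : ℂ) ∂(P Ω) = 1 := by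
    simp
  rw [e1, mul_one]
  refine h3.congr fun n => ?_
  refine integral_congr_ae (Eventually.of_forall fun p => ?_)
  simp

end

end Pool.Agent.H992.SF.PL
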