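import Pool.Agent.H992.SF.Fin
import Pool.Agent.H992.SF.GMain
import Pool.Agent.H767.SG.RZ
import Pool.Agent.H703.SG.MIX
import Pool.Agent.H51.SG.FAST
import Pool.Agent.H264.SG.SUB
import Pool.Agent.H370.SG.SLOW2
import Pool.Agent.H806.SG.CLAIM2
import Pool.Agent.H189.SG.LINV2
import Pool.Agent.H588.SG.CORE
import Pool.Agent.H253.SG.JDIFF
import Pool.Agent.H323.SG.EXT
import Pool.Agent.H323.SG.CLS
import Pool.Agent.H122.SG.ALL2
import Pool.Agent.H585.SG.GEN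
import Pool.Agent.H176.SG.BRIDGE2
import Pool.Agent.H161.SG.BDT
import Pool.Agent.H333.SG.BCV
import Pool.Agent.H653.SG.INV2
import Pool.Agent.H740.SG.EQUIV2
import Pool.Agent.H992.SF.PL

/-!
# General families of eigenfunctions: final assembly (MP_a28cf0_nt)
-/

set_option autoImplicit false
open MeasureTheory Filter Topology Complex ProbabilityTheory
open scoped ContDiff ENNReal

namespace Pool.Agent.H992.SF

open Pool.Agent.W745.RW (TF lap)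
open Pool.Agent.N661.BR (MW lin shift IsStationary IsErgodic IsRandomWave)
open Pool.Agent.N661.BH (HP area frames loc mv LocalLaws IsQuantumErgodic)
open Pool.Agent.N814.BHASM (Hyp)

theorem g_linv2 : S_LINV2 :=
  Pool.Agent.H189.SG.linv2 (Pool.Agent.H806.SG.claim2
    (Pool.Agent.H370.SG.slow2 Pool.Agent.H388.SF.eq2))
theorem g_core : S_CORE :=
  Pool.Agent.H588.SG.core Pool.Agent.H703.SG.mix Pool.Agent.H51.SG.fast g_linv2
theorem g_cls : S_CLS :=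
  Pool.Agent.H323.SG.cls Pool.Agent.H767.SG.rz g_core Pool.Agent.H253.SG.jdiff
    Pool.Agent.H323.SG.ext
theorem g_peel2 : S_PEEL2 := PL.peel2 Pool.Agent.H767.SG.rz g_core
theorem g_gen : S_GEN :=
  Pool.Agent.H585.SG.gen Pool.Agent.H264.SG.sub g_cls (Pool.Agent.H122.SG.all2 g_peel2)
theorem g_inv2 : S_INV2 := Pool.Agent.H653.SG.inv2 g_linv2 Pool.Agent.H176.SG.bridge2
theorem g_equiv2 : S_EQUIV2 :=
  Pool.Agent.H740.SG.equiv2 g_gen Pool.Agent.H176.SG.bridge2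
    (Pool.Agent.H161.SG.bdt Pool.Agent.H176.SG.bridge2)
    (Pool.Agent.H333.SG.bcv Pool.Agent.H176.SG.bridge2)

theorem gfin (d : ℕ) (Ω : Set ℂ)
    (lam : Fin (d + 1) → ℕ → ℝ) (u : Fin (d + 1) → ℕ → ℂ → ℝ)
    (H : ∀ i, Hyp Ω (lam i) (u i)) :
    (∀ (i₀ : Fin (d + 1)) (c : Fin (d + 1) → ℝ) (ψ : ℂ → ℝ), TF Ω ψ →
      ∀ (k : ℕ) (w : Fin (d + 1) → Fin k → ℂ) (t : Fin (d + 1) → Fin k → ℝ) (x : ℂ),
      (∀ i, t i = 0 ∨ Tendsto (fun n => √(lam i n / lam i₀ n)) atTop (𝓝 (c i))) →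
      Tendsto (fun n => jChar Ω ψ (fun i => lam i n) (fun i => u i n)
          (fun i j => w i j + (c i : ℂ) * x) t -
        jChar Ω ψ (fun i => lam i n) (fun i => u i n) w t) atTop (𝓝 0)) ∧
    ((∀ i j, i < j → Tendsto (fun n => lam j n / lam i n) atTop (𝓝 0)) →
      (∀ m : Fin d → Measure MW, (∀ i, IsProbabilityMeasure (m i)) → (∀ i, IsErgodic (m i)) →
        (∀ i : Fin d, LocalLaws Ω (lam i.castSucc) (u i.castSucc) (m i)) →
        ∀ ψ, TF Ω ψ → ∀ (k : ℕ) (w : Fin (d + 1) → Fin k → ℂ) (t : Fin (d + 1) → Fin k → ℝ),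
        Tendsto (fun n => jChar Ω ψ (fun i => lam i n) (fun i => u i n) w t -
          (∏ i : Fin d, ∫ f, Complex.exp (I * (lin (w i.castSucc) (t i.castSucc) f : ℝ)) ∂(m i)) *
            jChar Ω ψ (fun _ : Fin 1 => lam (Fin.last d) n) (fun _ => u (Fin.last d) n)
              (fun _ => w (Fin.last d)) (fun _ => t (Fin.last d))) atTop (𝓝 0)) ∧
      (∀ m : Fin (d + 1) → Measure MW, (∀ i, IsProbabilityMeasure (m i)) →
        (∀ i, IsErgodic (m i)) → (∀ i, LocalLaws Ω (lam i) (u i) (m i)) →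
        ∀ ψ, TF Ω ψ → ∀ (k : ℕ) (w : Fin (d + 1) → Fin k → ℂ) (t : Fin (d + 1) → Fin k → ℝ),
        Tendsto (fun n => jChar Ω ψ (fun i => lam i n) (fun i => u i n) w t) atTop
          (𝓝 ((∏ i, ∫ f, Complex.exp (I * (lin (w i) (t i) f : ℝ)) ∂(m i)) *
            area Ω fun z => (ψ z : ℂ))))) ∧
    ∀ γ : Measure MW, IsProbabilityMeasure γ → IsRandomWave γ →
      ∀ U : Fin (d + 1) → Set ℂ, (∀ i, IsOpen (U i)) → (∀ i, (U i).Nonempty) →
      ∀ κ : Fin (d + 1) → ℕ,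
      (∀ i j, κ i < κ j → Tendsto (fun n => lam j n / lam i n) atTop (𝓝 0)) →
      ((∀ a : ℕ, ∃ C : ℝ, ∀ (n k : ℕ) (w : Fin (d + 1) → Fin k → ℂ)
          (t : Fin n → Fin (d + 1) → Fin k → ℝ) (c : Fin n → ℂ),
          (∀ i j, w i j ∈ U i) → (∀ m i, κ i ≠ a → t m i = 0) → ∀ ε : ℝ, 0 < ε → ∀ᶠ l in atTop,
            ‖∑ m, c m * jChar Ω (fun _ => 1) (fun i => lam i l) (fun i => u i l) w (t m)‖ ^ 2 ≤
              C * (∫ F : Fin (d + 1) → MW, ‖∑ m, c m *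
                Complex.exp (I * ((∑ i, lin (w i) (t m i) (F i) : ℝ) : ℂ))‖ ^ 2
                  ∂(Measure.pi fun _ => γ)) + ε) ↔
        ∀ ψ, TF Ω ψ → ∀ (k : ℕ) (w : Fin (d + 1) → Fin k → ℂ) (t : Fin (d + 1) → Fin k → ℝ),
          Tendsto (fun n => jChar Ω ψ (fun i => lam i n) (fun i => u i n) w t) atTop
            (𝓝 ((∏ i, ∫ f, Complex.exp (I * (lin (w i) (t i) f : ℝ)) ∂γ) *
              area Ω fun z => (ψ z : ℂ)))) ∧
      ((∀ a : ℕ, ∃ C : ℝ, ∀ (n k : ℕ) (w : Fin (d + 1) → Fin k → ℂ)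
          (t : Fin n → Fin (d + 1) → Fin k → ℝ) (c : Fin n → ℂ),
          (∀ i j, w i j ∈ U i) → (∀ m i, κ i ≠ a → t m i = 0) → ∀ ε : ℝ, 0 < ε → ∀ᶠ l in atTop,
            ‖∑ m, c m * jChar Ω (fun _ => 1) (fun i => lam i l) (fun i => u i l) w (t m)‖ ^ 2 ≤
              C * (∫ F : Fin (d + 1) → MW, ‖∑ m, c m *
                Complex.exp (I * ((∑ i, lin (w i) (t m i) (F i) : ℝ) : ℂ))‖ ^ 2
                  ∂(Measure.pi fun _ => γ)) + ε) →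
        ∀ ψ, TF Ω ψ → (∀ z, 0 ≤ ψ z) → ∀ a : Fin (d + 1) → ℕ,
          (∃ q C : ℝ, (∑ i, a i : ℕ) < q ∧ ∀ i, ∀ᶠ n in atTop,
            ∫ z in Ω, ψ z / z.im ^ 2 * |u i n z| ^ q ≤ C) →
          Tendsto (fun n => ∫ z in Ω, ψ z / z.im ^ 2 * ∏ i, u i n z ^ a i) atTop
            (𝓝 ((∏ i, ∫ x, x ^ a i ∂(gaussianReal 0 1)) * ∫ z in Ω, ψ z / z.im ^ 2))) :=
  main2 g_inv2 s_all s_prod g_equiv2 Pool.Agent.H155.SF.vals Pool.Agent.H627.SF.mom
    d Ω lam u H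

end Pool.Agent.H992.SF
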