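import Pool.Agent.H992.LB.End
import Pool.Graph.R_pool_sql_team_seeded_63374d34.N661.BH.Defs3

/-!
# Several eigenfunctions with separated frequencies: definitions and interfaces (MP_a28cf0_nt)
-/

set_option autoImplicit false
open MeasureTheory Filter Topology Complex ProbabilityTheory
open scoped ContDiff ENNReal

namespace Pool.Agent.H992.SF

open Pool.Agent.W745.RW (TF)
open Pool.Agent.Y265.HY (SY)
open Pool.Agent.N661.BR (MW lin shift IsStationary IsErgodic IsRandomWave)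
open Pool.Agent.N661.BH (HP area frames loc mv LocalLaws)
open Pool.Agent.N814.BHM (P mass)
open Pool.Agent.N814.BHASM (Hyp ex)
open Pool.Agent.N40.BRSTATH (Fy)
open Pool.Agent.H992.LB (eγ eX SX locChar trigSum)

noncomputable section

/-- the mean of `F R` over all rotations and reflections `R` of the plane -/
def frameMean (F : (ℂ → ℂ) → ℂ) : ℂ :=
  ((1 / (4 * Real.pi) : ℝ) : ℂ) * ∫ θ in (0:ℝ)..(2 * Real.pi),
    (F (fun v => Complex.exp (θ * I) * v) + F (fun v => Complex.exp (θ * I) * starRingEnd ℂ v))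

/-- The characteristic function of the joint law of the rescaled functions
`w ↦ u i (z + y λ_i^{-1/2} w)`, all of them seen in one random orthonormal frame at the point
`z = x + i y`, integrated against `ψ (z) dx dy / y²` (not normalised). The function number `i` is
evaluated at the points `w i j`. -/
def jChar {d : ℕ} (Ω : Set ℂ) (ψ : ℂ → ℝ) (lam : Fin d → ℝ) (u : Fin d → ℂ → ℝ) {k : ℕ}
    (w : Fin d → Fin k → ℂ) (t : Fin d → Fin k → ℝ) : ℂ :=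
  area Ω fun z => (ψ z : ℂ) * frameMean fun R => Complex.exp (I *
    ((∑ i, ∑ j, t i j * loc (lam i) (u i) z (R (w i j)) : ℝ) : ℂ))

/-- the frequencies are separated, `u i` is faster than `u j` for `i < j` -/
def Separated {d : ℕ} (lam : Fin d → ℕ → ℝ) : Prop :=
  ∀ i j, i < j → Tendsto (fun n => lam j n / lam i n) atTop (𝓝 0)

/-! ### Interfaces -/

/-- SF/INJ -/
def S_INJ : Prop := ∀ (m : Measure MW), IsProbabilityMeasure m → ∀ g g' : MW → ℝ,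
  Integrable g m → Integrable g' m →
  (∀ τ : ℂ →₀ ℝ, ∫ f, (g f : ℂ) * eγ τ f ∂m = ∫ f, (g' f : ℂ) * eγ τ f ∂m) → g =ᵐ[m] g'

/-- SF/CONST -/
def S_CONST : Prop := ∀ (m : Measure MW), IsProbabilityMeasure m → IsErgodic m → ∀ g : MW → ℝ,
  Measurable g → (∀ x : ℂ, (fun f => g (shift x f)) =ᵐ[m] g) → ∃ c : ℝ, g =ᵐ[m] fun _ => c

/-- SF/HC -/
def S_HC : Prop := ∀ (m : Measure MW), IsProbabilityMeasure m → IsStationary m → IsErgodic m →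
  ∀ h : MW → ℂ, MemLp h 2 m →
  (∀ (τ : ℂ →₀ ℝ) (x : ℂ), ∫ f, (starRingEnd ℂ) (h f) * eγ (τ.mapDomain (· + x)) f ∂m =
    ∫ f, (starRingEnd ℂ) (h f) * eγ τ f ∂m) →
  ∀ τ : ℂ →₀ ℝ, ∫ f, (starRingEnd ℂ) (h f) * eγ τ f ∂m =
    (∫ f, (starRingEnd ℂ) (h f) ∂m) * ∫ f, eγ τ f ∂m

/-- SF/ABS: an ergodic local limit is asymptotically independent of everything slow -/
def S_ABS : Prop := ∀ (Z : Type) (_ : MeasurableSpace Z) (Q : Measure Z), IsProbabilityMeasure Q →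
  ∀ (s : ℕ → Z → (ℂ →₀ ℝ) →+ ℝ), (∀ n τ, Measurable fun z => s n z τ) →
  ∀ (B : ℕ → Z → ℂ), (∀ n, Measurable (B n)) → (∃ C : ℝ, ∀ n z, ‖B n z‖ ≤ C) →
  ∀ (m : Measure MW), IsProbabilityMeasure m → IsStationary m → IsErgodic m →
  (∀ τ : ℂ →₀ ℝ, Tendsto (fun n => ∫ z, Complex.exp (I * (s n z τ : ℝ)) ∂Q) atTop
    (𝓝 (∫ f, eγ τ f ∂m))) →
  (∀ (τ : ℂ →₀ ℝ) (x : ℂ), Tendsto (fun n => ∫ z, (Complex.exp (I * (s n z
    (τ.mapDomain (· + x)) : ℝ)) - Complex.exp (I * (s n z τ : ℝ))) * B n z ∂Q) atTop (𝓝 0)) →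
  ∀ τ : ℂ →₀ ℝ, Tendsto (fun n => (∫ z, Complex.exp (I * (s n z τ : ℝ)) * B n z ∂Q) -
    (∫ f, eγ τ f ∂m) * ∫ z, B n z ∂Q) atTop (𝓝 0)

/-- SF/EQ2: equicontinuity of displaced functions -/
def S_EQ2 : Prop := ∀ (B : Set ℂ) (h : ℕ → ℝ) (w : ℤ → ℕ → ℂ → ℂ), SY B Complex.im h w →
  ∀ φ, TF B φ → (∀ z, 0 ≤ φ z) → ∀ (v v' : ℕ → ℂ), (∃ R : ℝ, ∀ n, ‖v n‖ ≤ R ∧ ‖v' n‖ ≤ R) →
  Tendsto (fun n => v n - v' n) atTop (𝓝 0) →
  Tendsto (fun n => ∫ z, φ z * ‖w 0 n (mv (h n) (v n) z) - w 0 n (mv (h n) (v' n) z)‖ ^ 2) atTop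
    (𝓝 0)

/-- SF/SLOW: slow functions do not feel displacements at the fast scale -/
def S_SLOW : Prop := ∀ (Ω : Set ℂ) (lam : ℕ → ℝ) (u : ℕ → ℂ → ℝ), Hyp Ω lam u →
  ∀ κ : ℕ → ℝ, (∀ n, 0 < κ n) → Tendsto (fun n => lam n / κ n) atTop (𝓝 0) →
  ∀ ψ, TF Ω ψ → (∀ z, 0 ≤ ψ z) → ∀ x y : ℂ,
  Tendsto (fun n => ∫ z, ψ z * |u n (mv (1 / √(lam n)) y (mv (1 / √(κ n)) x z)) -
    u n (mv (1 / √(lam n)) y z)|) atTop (𝓝 0)

/-- SF/CLAIM: near invariance in a fixed frame -/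
def S_CLAIM : Prop := ∀ (d : ℕ) (Ω : Set ℂ) (lam : Fin d → ℕ → ℝ) (u : Fin d → ℕ → ℂ → ℝ),
  (∀ i, Hyp Ω (lam i) (u i)) → ∀ (i₀ : Fin d) (S : Finset (Fin d)),
  (∀ i ∈ S, Tendsto (fun n => lam i n / lam i₀ n) atTop (𝓝 0)) →
  ∀ ψ, TF Ω ψ → (∀ z, 0 ≤ ψ z) → ∀ (k' : ℕ) (s : Fin k' → ℝ) (y' : Fin k' → ℂ) (x : ℂ)
    (k : ℕ) (t : Fin d → Fin k → ℝ) (y : Fin d → Fin k → ℂ),
  Tendsto (fun n => ∫ z, (ψ z : ℂ) * ((Fy (1 / √(lam i₀ n)) (u i₀ n) s (fun j => y' j + x) z -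
    Fy (1 / √(lam i₀ n)) (u i₀ n) s y' z) *
    ∏ i ∈ S, Fy (1 / √(lam i n)) (u i n) (t i) (y i) z)) atTop (𝓝 0)

/-- SF/LINV: near invariance in a random frame, any test function -/
def S_LINV : Prop := ∀ (d : ℕ) (Ω : Set ℂ) (lam : Fin d → ℕ → ℝ) (u : Fin d → ℕ → ℂ → ℝ),
  (∀ i, Hyp Ω (lam i) (u i)) → ∀ (i₀ : Fin d) (S : Finset (Fin d)),
  (∀ i ∈ S, Tendsto (fun n => lam i n / lam i₀ n) atTop (𝓝 0)) →
  ∀ ψ, TF Ω ψ → ∀ (τ : ℂ →₀ ℝ) (x : ℂ) (k : ℕ) (t : Fin d → Fin k → ℝ) (w : Fin d → Fin k → ℂ),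
  Tendsto (fun n => ∫ p, (eX (lam i₀ n) (u i₀ n) (τ.mapDomain (· + x)) p -
    eX (lam i₀ n) (u i₀ n) τ p) * ((ψ p.1 : ℂ) *
    ∏ i ∈ S, ex (lam i n) (u i n) (fun j => (t i j : ℂ)) (w i) p) ∂(P Ω)) atTop (𝓝 0)

/-- SF/BRIDGE: the joint characteristic functions as means over random frames -/
def S_BRIDGE : Prop := ∀ (d : ℕ) (Ω : Set ℂ) (lam : Fin d → ℕ → ℝ) (u : Fin d → ℕ → ℂ → ℝ),
  (∀ i, Hyp Ω (lam i) (u i)) → 0 < d → ∀ ψ, TF Ω ψ → ∀ (k : ℕ) (w : Fin d → Fin k → ℂ)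
    (t : Fin d → Fin k → ℝ), ∀ᶠ n in atTop,
  jChar Ω ψ (fun i => lam i n) (fun i => u i n) w t = (mass Ω : ℂ) * ∫ p, (ψ p.1 : ℂ) *
    ∏ i, ex (lam i n) (u i n) (fun j => (t i j : ℂ)) (w i) p ∂(P Ω)

/-- SF/INV: the joint law of a function and of slower ones is asymptotically invariant under the
translations of this function alone -/
def S_INV : Prop := ∀ (d : ℕ) (Ω : Set ℂ) (lam : Fin d → ℕ → ℝ) (u : Fin d → ℕ → ℂ → ℝ),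
  (∀ i, Hyp Ω (lam i) (u i)) → Separated lam → ∀ (i₀ : Fin d), ∀ ψ, TF Ω ψ →
  ∀ (k : ℕ) (w : Fin d → Fin k → ℂ) (t : Fin d → Fin k → ℝ) (x : ℂ), (∀ i, i < i₀ → t i = 0) →
  Tendsto (fun n =>
    jChar Ω ψ (fun i => lam i n) (fun i => u i n) (Function.update w i₀ fun j => w i₀ j + x) t -
      jChar Ω ψ (fun i => lam i n) (fun i => u i n) w t) atTop (𝓝 0)

/-- SF/PEEL: removing the fastest function -/
def S_PEEL : Prop := ∀ (d : ℕ) (Ω : Set ℂ) (lam : Fin d → ℕ → ℝ) (u : Fin d → ℕ → ℂ → ℝ),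
  (∀ i, Hyp Ω (lam i) (u i)) → Separated lam → ∀ (i₀ : Fin d) (m : Measure MW),
  IsProbabilityMeasure m → IsErgodic m → LocalLaws Ω (lam i₀) (u i₀) m →
  ∀ ψ, TF Ω ψ → ∀ (k : ℕ) (w : Fin d → Fin k → ℂ) (t : Fin d → Fin k → ℝ),
  (∀ i, i < i₀ → t i = 0) →
  Tendsto (fun n => jChar Ω ψ (fun i => lam i n) (fun i => u i n) w t -
    (∫ f, Complex.exp (I * (lin (w i₀) (t i₀) f : ℝ)) ∂m) *
      jChar Ω ψ (fun i => lam i n) (fun i => u i n) w (Function.update t i₀ 0)) atTop (𝓝 0)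

/-- SF/ALL: everything but the slowest function decouples -/
def S_ALL : Prop := ∀ (d : ℕ) (Ω : Set ℂ) (lam : Fin (d + 1) → ℕ → ℝ)
  (u : Fin (d + 1) → ℕ → ℂ → ℝ), (∀ i, Hyp Ω (lam i) (u i)) → Separated lam →
  ∀ (m : Fin d → Measure MW), (∀ i, IsProbabilityMeasure (m i)) → (∀ i, IsErgodic (m i)) →
  (∀ i : Fin d, LocalLaws Ω (lam i.castSucc) (u i.castSucc) (m i)) →
  ∀ ψ, TF Ω ψ → ∀ (k : ℕ) (w : Fin (d + 1) → Fin k → ℂ) (t : Fin (d + 1) → Fin k → ℝ),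
  Tendsto (fun n => jChar Ω ψ (fun i => lam i n) (fun i => u i n) w t -
    (∏ i : Fin d, ∫ f, Complex.exp (I * (lin (w i.castSucc) (t i.castSucc) f : ℝ)) ∂(m i)) *
      jChar Ω ψ (fun _ : Fin 1 => lam (Fin.last d) n) (fun _ => u (Fin.last d) n)
        (fun _ => w (Fin.last d)) (fun _ => t (Fin.last d))) atTop (𝓝 0)

/-- SF/PROD: all limits ergodic -/
def S_PROD : Prop := ∀ (d : ℕ) (Ω : Set ℂ) (lam : Fin (d + 1) → ℕ → ℝ)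
  (u : Fin (d + 1) → ℕ → ℂ → ℝ), (∀ i, Hyp Ω (lam i) (u i)) → Separated lam →
  ∀ (m : Fin (d + 1) → Measure MW), (∀ i, IsProbabilityMeasure (m i)) → (∀ i, IsErgodic (m i)) →
  (∀ i, LocalLaws Ω (lam i) (u i) (m i)) →
  ∀ ψ, TF Ω ψ → ∀ (k : ℕ) (w : Fin (d + 1) → Fin k → ℂ) (t : Fin (d + 1) → Fin k → ℝ),
  Tendsto (fun n => jChar Ω ψ (fun i => lam i n) (fun i => u i n) w t) atTop
    (𝓝 ((∏ i, ∫ f, Complex.exp (I * (lin (w i) (t i) f : ℝ)) ∂(m i)) * area Ω fun z => (ψ z : ℂ)))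

/-- SF/EQUIV: the random wave limit for all functions jointly, or for each by itself, or an upper
bound up to a constant in one disc for each of them -/
def S_EQUIV : Prop := ∀ (d : ℕ) (Ω : Set ℂ) (lam : Fin (d + 1) → ℕ → ℝ)
  (u : Fin (d + 1) → ℕ → ℂ → ℝ), (∀ i, Hyp Ω (lam i) (u i)) → Separated lam →
  ∀ γ : Measure MW, IsProbabilityMeasure γ → IsRandomWave γ →
  ∀ U : Fin (d + 1) → Set ℂ, (∀ i, IsOpen (U i)) → (∀ i, (U i).Nonempty) →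
  ((∀ i, ∃ C : ℝ, ∀ (n k : ℕ) (w : Fin k → ℂ) (t : Fin n → Fin k → ℝ) (c : Fin n → ℂ),
      (∀ j, w j ∈ U i) → ∀ ε : ℝ, 0 < ε → ∀ᶠ l in atTop,
        ‖∑ m, c m * locChar Ω (lam i l) (u i l) w (t m)‖ ^ 2 ≤
          C * (∫ f, ‖trigSum w t c f‖ ^ 2 ∂γ) + ε) ↔
    ∀ ψ, TF Ω ψ → ∀ (k : ℕ) (w : Fin (d + 1) → Fin k → ℂ) (t : Fin (d + 1) → Fin k → ℝ),
      Tendsto (fun n => jChar Ω ψ (fun i => lam i n) (fun i => u i n) w t) atTop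
        (𝓝 ((∏ i, ∫ f, Complex.exp (I * (lin (w i) (t i) f : ℝ)) ∂γ) *
          area Ω fun z => (ψ z : ℂ))))

/-- SF/VAL: the joint random wave limit contains the joint law of the values -/
def S_VAL : Prop := ∀ (d : ℕ) (Ω : Set ℂ) (lam : Fin d → ℕ → ℝ) (u : Fin d → ℕ → ℂ → ℝ),
  ∀ γ : Measure MW, IsProbabilityMeasure γ → IsRandomWave γ → ∀ ψ : ℂ → ℝ,
  (∀ (k : ℕ) (w : Fin d → Fin k → ℂ) (t : Fin d → Fin k → ℝ),
    Tendsto (fun n => jChar Ω ψ (fun i => lam i n) (fun i => u i n) w t) atTop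
      (𝓝 ((∏ i, ∫ f, Complex.exp (I * (lin (w i) (t i) f : ℝ)) ∂γ) *
        area Ω fun z => (ψ z : ℂ)))) →
  ∀ t : Fin d → ℝ, Tendsto (fun n => ∫ z in Ω, ((ψ z / z.im ^ 2 : ℝ) : ℂ) *
    Complex.exp (I * ((∑ i, t i * u i n z : ℝ) : ℂ))) atTop
    (𝓝 (Complex.exp (-(∑ i, (t i : ℂ) ^ 2) / 2) * ∫ z in Ω, ((ψ z / z.im ^ 2 : ℝ) : ℂ)))

/-- SF/MOM: from characteristic functions to moments, with weights -/
def S_MOM : Prop := ∀ (d : ℕ) (Ω : Set ℂ) (u : Fin d → ℕ → ℂ → ℝ), IsOpen Ω → Ω ⊆ HP →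
  (∀ i n, ContinuousOn (u i n) Ω) → ∀ ψ, TF Ω ψ → (∀ z, 0 ≤ ψ z) → ∀ a : Fin d → ℕ,
  (∀ t : Fin d → ℝ, Tendsto (fun n => ∫ z in Ω, ((ψ z / z.im ^ 2 : ℝ) : ℂ) *
    Complex.exp (I * ((∑ i, t i * u i n z : ℝ) : ℂ))) atTop
    (𝓝 (Complex.exp (-(∑ i, (t i : ℂ) ^ 2) / 2) * ∫ z in Ω, ((ψ z / z.im ^ 2 : ℝ) : ℂ)))) →
  (∃ q C : ℝ, (∑ i, a i : ℕ) < q ∧ ∀ i, ∀ᶠ n in atTop,
    ∫ z in Ω, ψ z / z.im ^ 2 * |u i n z| ^ q ≤ C) →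
  Tendsto (fun n => ∫ z in Ω, ψ z / z.im ^ 2 * ∏ i, u i n z ^ a i) atTop
    (𝓝 ((∏ i, ∫ x, x ^ a i ∂(gaussianReal 0 1)) * ∫ z in Ω, ψ z / z.im ^ 2))

end

end Pool.Agent.H992.SF
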