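import Pool.Agent.H992.SF.Main
import Pool.Agent.H740.SF.INJ
import Pool.Agent.H600.SF.Const
import Pool.Agent.H284.SF.Hc
import Pool.Agent.H385.SF.Abs
import Pool.Agent.H388.SF.EQ2
import Pool.Agent.H974.SF.Slow
import Pool.Agent.H115.SF.Claim
import Pool.Agent.H588.SF.Linv
import Pool.Agent.H236.SF.Inv
import Pool.Agent.H289.SF.Peel
import Pool.Agent.H404.SF.All
import Pool.Agent.H299.SF.Equiv
import Pool.Agent.H155.SF.VAL
import Pool.Agent.H627.SF.Mom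
import Pool.Agent.H56.SF.Bridge

/-!
# Several eigenfunctions with separated frequencies: final assembly (MP_a28cf0_nt)
-/

set_option autoImplicit false
open MeasureTheory Filter Topology Complex ProbabilityTheory
open scoped ContDiff ENNReal

namespace Pool.Agent.H992.SF

open Pool.Agent.W745.RW (TF lap)
open Pool.Agent.N661.BR (MW lin shift IsStationary IsErgodic IsRandomWave)
open Pool.Agent.N661.BH (HP area frames loc mv LocalLaws IsQuantumErgodic)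
open Pool.Agent.N814.BHASM (Hyp)
open Pool.Agent.H992.LB (locChar trigSum)

theorem s_hc : S_HC := Pool.Agent.H284.SF.hc Pool.Agent.H740.SF.inj Pool.Agent.H600.SF.const
theorem s_abs : S_ABS := Pool.Agent.H385.SF.abs s_hc
theorem s_slow : S_SLOW := Pool.Agent.H974.SF.slow Pool.Agent.H388.SF.eq2
theorem s_claim : S_CLAIM := Pool.Agent.H115.SF.claim2 s_slow
theorem s_linv : S_LINV := Pool.Agent.H588.SF.linv s_claim
theorem s_inv : S_INV := Pool.Agent.H236.SF.inv s_linv Pool.Agent.H56.SF.bridge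
theorem s_peel : S_PEEL := Pool.Agent.H289.SF.peel s_abs s_linv Pool.Agent.H56.SF.bridge
theorem s_all : S_ALL := Pool.Agent.H404.SF.all s_peel
theorem s_prod : S_PROD := Pool.Agent.H404.SF.prod s_peel
theorem s_equiv : S_EQUIV := Pool.Agent.H299.SF.equiv s_prod

theorem fin (d : ℕ) (Ω : Set ℂ)
    (lam : Fin (d + 1) → ℕ → ℝ) (u : Fin (d + 1) → ℕ → ℂ → ℝ)
    (H : ∀ i, Hyp Ω (lam i) (u i)) (hsep : Separated lam) :
    (∀ (i₀ : Fin (d + 1)) (ψ : ℂ → ℝ), TF Ω ψ → ∀ (k : ℕ) (w : Fin (d + 1) → Fin k → ℂ)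
      (t : Fin (d + 1) → Fin k → ℝ) (x : ℂ), (∀ i, i < i₀ → t i = 0) →
      Tendsto (fun n => jChar Ω ψ (fun i => lam i n) (fun i => u i n)
          (Function.update w i₀ fun j => w i₀ j + x) t -
        jChar Ω ψ (fun i => lam i n) (fun i => u i n) w t) atTop (𝓝 0)) ∧
    (∀ m : Fin d → Measure MW, (∀ i, IsProbabilityMeasure (m i)) → (∀ i, IsErgodic (m i)) →
      (∀ i : Fin d, LocalLaws Ω (lam i.castSucc) (u i.castSucc) (m i)) →
      ∀ ψ, TF Ω ψ → ∀ (k : ℕ) (w : Fin (d + 1) → Fin k → ℂ) (t : Fin (d + 1) → Fin k → ℝ),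
      Tendsto (fun n => jChar Ω ψ (fun i => lam i n) (fun i => u i n) w t -
        (∏ i : Fin d, ∫ f, Complex.exp (I * (lin (w i.castSucc) (t i.castSucc) f : ℝ)) ∂(m i)) *
          jChar Ω ψ (fun _ : Fin 1 => lam (Fin.last d) n) (fun _ => u (Fin.last d) n)
            (fun _ => w (Fin.last d)) (fun _ => t (Fin.last d))) atTop (𝓝 0)) ∧
    (∀ m : Fin (d + 1) → Measure MW, (∀ i, IsProbabilityMeasure (m i)) →
      (∀ i, IsErgodic (m i)) → (∀ i, LocalLaws Ω (lam i) (u i) (m i)) →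
      ∀ ψ, TF Ω ψ → ∀ (k : ℕ) (w : Fin (d + 1) → Fin k → ℂ) (t : Fin (d + 1) → Fin k → ℝ),
      Tendsto (fun n => jChar Ω ψ (fun i => lam i n) (fun i => u i n) w t) atTop
        (𝓝 ((∏ i, ∫ f, Complex.exp (I * (lin (w i) (t i) f : ℝ)) ∂(m i)) *
          area Ω fun z => (ψ z : ℂ)))) ∧
    ∀ γ : Measure MW, IsProbabilityMeasure γ → IsRandomWave γ →
      ∀ U : Fin (d + 1) → Set ℂ, (∀ i, IsOpen (U i)) → (∀ i, (U i).Nonempty) →
      ((∀ i, ∃ C : ℝ, ∀ (n k : ℕ) (w : Fin k → ℂ) (t : Fin n → Fin k → ℝ) (c : Fin n → ℂ),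
          (∀ j, w j ∈ U i) → ∀ ε : ℝ, 0 < ε → ∀ᶠ l in atTop,
            ‖∑ m, c m * locChar Ω (lam i l) (u i l) w (t m)‖ ^ 2 ≤
              C * (∫ f, ‖trigSum w t c f‖ ^ 2 ∂γ) + ε) ↔
        ∀ ψ, TF Ω ψ → ∀ (k : ℕ) (w : Fin (d + 1) → Fin k → ℂ) (t : Fin (d + 1) → Fin k → ℝ),
          Tendsto (fun n => jChar Ω ψ (fun i => lam i n) (fun i => u i n) w t) atTop
            (𝓝 ((∏ i, ∫ f, Complex.exp (I * (lin (w i) (t i) f : ℝ)) ∂γ) *
              area Ω fun z => (ψ z : ℂ)))) ∧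
      ((∀ i, ∃ C : ℝ, ∀ (n k : ℕ) (w : Fin k → ℂ) (t : Fin n → Fin k → ℝ) (c : Fin n → ℂ),
          (∀ j, w j ∈ U i) → ∀ ε : ℝ, 0 < ε → ∀ᶠ l in atTop,
            ‖∑ m, c m * locChar Ω (lam i l) (u i l) w (t m)‖ ^ 2 ≤
              C * (∫ f, ‖trigSum w t c f‖ ^ 2 ∂γ) + ε) →
        ∀ ψ, TF Ω ψ → (∀ z, 0 ≤ ψ z) → ∀ a : Fin (d + 1) → ℕ,
          (∃ q C : ℝ, (∑ i, a i : ℕ) < q ∧ ∀ i, ∀ᶠ n in atTop,
            ∫ z in Ω, ψ z / z.im ^ 2 * |u i n z| ^ q ≤ C) →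
          Tendsto (fun n => ∫ z in Ω, ψ z / z.im ^ 2 * ∏ i, u i n z ^ a i) atTop
            (𝓝 ((∏ i, ∫ x, x ^ a i ∂(gaussianReal 0 1)) * ∫ z in Ω, ψ z / z.im ^ 2))) :=
  main s_inv s_all s_prod s_equiv
    Pool.Agent.H155.SF.vals Pool.Agent.H627.SF.mom d Ω lam u H hsep

end Pool.Agent.H992.SF
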