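import Pool.Agent.H992.SF.Defs

/-!
# Several eigenfunctions with separated frequencies: assembly from the interfaces
-/

set_option autoImplicit false
open MeasureTheory Filter Topology Complex ProbabilityTheory
open scoped ContDiff ENNReal

namespace Pool.Agent.H992.SF

open Pool.Agent.W745.RW (TF lap)
open Pool.Agent.N661.BR (MW lin shift IsStationary IsErgodic IsRandomWave)
open Pool.Agent.N661.BH (HP area frames loc mv LocalLaws IsQuantumErgodic)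
open Pool.Agent.N814.BHASM (Hyp)
open Pool.Agent.H992.LB (locChar trigSum)

theorem main (hinv : S_INV) (hall : S_ALL) (hprod : S_PROD) (heqv : S_EQUIV) (hval : S_VAL)
    (hmom : S_MOM) (d : ℕ) (Ω : Set ℂ)
    (lam : Fin (d + 1) → ℕ → ℝ) (u : Fin (d + 1) → ℕ → ℂ → ℝ)
    (H : ∀ i, Hyp Ω (lam i) (u i)) (hsep : Separated lam) :
    (∀ (i₀ : Fin (d + 1)) (ψ : ℂ → ℝ), TF Ω ψ → ∀ (k : ℕ) (w : Fin (d + 1) → Fin k → ℂ)
      (t : Fin (d + 1) → Fin k → ℝ) (x : ℂ), (∀ i, i < i₀ → t i = 0) →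
      Tendsto (fun n => jChar Ω ψ (fun i => lam i n) (fun i => u i n)
          (Function.update w i₀ fun j => w i₀ j + x) t -
        jChar Ω ψ (fun i => lam i n) (fun i => u i n) w t) atTop (𝓝 0)) ∧
    (∀ m : Fin d → Measure MW, (∀ i, IsProbabilityMeasure (m i)) → (∀ i, IsErgodic (m i)) →
      (∀ i : Fin d, LocalLaws Ω (lam i.castSucc) (u i.castSucc) (m i)) →
      ∀ ψ, TF Ω ψ → ∀ (k : ℕ) (w : Fin (d + 1) → Fin k → ℂ) (t : Fin (d + 1) → Fin k → ℝ),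
      Tendsto (fun n => jChar Ω ψ (fun i => lam i n) (fun i => u i n) w t -
        (∏ i : Fin d, ∫ f, Complex.exp (I * (lin (w i.castSucc) (t i.castSucc) f : ℝ)) ∂(m i)) *
          jChar Ω ψ (fun _ : Fin 1 => lam (Fin.last d) n) (fun _ => u (Fin.last d) n)
            (fun _ => w (Fin.last d)) (fun _ => t (Fin.last d))) atTop (𝓝 0)) ∧
    (∀ m : Fin (d + 1) → Measure MW, (∀ i, IsProbabilityMeasure (m i)) →
      (∀ i, IsErgodic (m i)) → (∀ i, LocalLaws Ω (lam i) (u i) (m i)) →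
      ∀ ψ, TF Ω ψ → ∀ (k : ℕ) (w : Fin (d + 1) → Fin k → ℂ) (t : Fin (d + 1) → Fin k → ℝ),
      Tendsto (fun n => jChar Ω ψ (fun i => lam i n) (fun i => u i n) w t) atTop
        (𝓝 ((∏ i, ∫ f, Complex.exp (I * (lin (w i) (t i) f : ℝ)) ∂(m i)) *
          area Ω fun z => (ψ z : ℂ)))) ∧
    ∀ γ : Measure MW, IsProbabilityMeasure γ → IsRandomWave γ →
      ∀ U : Fin (d + 1) → Set ℂ, (∀ i, IsOpen (U i)) → (∀ i, (U i).Nonempty) →
      ((∀ i, ∃ C : ℝ, ∀ (n k : ℕ) (w : Fin k → ℂ) (t : Fin n → Fin k → ℝ) (c : Fin n → ℂ),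
          (∀ j, w j ∈ U i) → ∀ ε : ℝ, 0 < ε → ∀ᶠ l in atTop,
            ‖∑ m, c m * locChar Ω (lam i l) (u i l) w (t m)‖ ^ 2 ≤
              C * (∫ f, ‖trigSum w t c f‖ ^ 2 ∂γ) + ε) ↔
        ∀ ψ, TF Ω ψ → ∀ (k : ℕ) (w : Fin (d + 1) → Fin k → ℂ) (t : Fin (d + 1) → Fin k → ℝ),
          Tendsto (fun n => jChar Ω ψ (fun i => lam i n) (fun i => u i n) w t) atTop
            (𝓝 ((∏ i, ∫ f, Complex.exp (I * (lin (w i) (t i) f : ℝ)) ∂γ) *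
              area Ω fun z => (ψ z : ℂ)))) ∧
      ((∀ i, ∃ C : ℝ, ∀ (n k : ℕ) (w : Fin k → ℂ) (t : Fin n → Fin k → ℝ) (c : Fin n → ℂ),
          (∀ j, w j ∈ U i) → ∀ ε : ℝ, 0 < ε → ∀ᶠ l in atTop,
            ‖∑ m, c m * locChar Ω (lam i l) (u i l) w (t m)‖ ^ 2 ≤
              C * (∫ f, ‖trigSum w t c f‖ ^ 2 ∂γ) + ε) →
        ∀ ψ, TF Ω ψ → (∀ z, 0 ≤ ψ z) → ∀ a : Fin (d + 1) → ℕ,
          (∃ q C : ℝ, (∑ i, a i : ℕ) < q ∧ ∀ i, ∀ᶠ n in atTop,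
            ∫ z in Ω, ψ z / z.im ^ 2 * |u i n z| ^ q ≤ C) →
          Tendsto (fun n => ∫ z in Ω, ψ z / z.im ^ 2 * ∏ i, u i n z ^ a i) atTop
            (𝓝 ((∏ i, ∫ x, x ^ a i ∂(gaussianReal 0 1)) * ∫ z in Ω, ψ z / z.im ^ 2))) := by
  refine ⟨fun i₀ ψ hψ k w t x ht => hinv _ Ω lam u H hsep i₀ ψ hψ k w t x ht,
    fun m hm he hL ψ hψ k w t => hall d Ω lam u H hsep m hm he hL ψ hψ k w t,
    fun m hm he hL ψ hψ k w t => hprod d Ω lam u H hsep m hm he hL ψ hψ k w t,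
    fun γ hγp hγ U hU hne => ⟨heqv d Ω lam u H hsep γ hγp hγ U hU hne, fun hb ψ hψ h0 a ha => ?_⟩⟩
  have h1 := (heqv d Ω lam u H hsep γ hγp hγ U hU hne).1 hb ψ hψ
  have h2 := hval (d + 1) Ω lam u γ hγp hγ ψ h1
  exact hmom (d + 1) Ω u (H 0).op (H 0).sub
    (fun i n => (((H i).sm n).mono (H 0).sub).continuousOn) ψ hψ h0 a h2 ha

end Pool.Agent.H992.SF
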