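import Pool.Agent.H992.SF.Fin

/-!
# Eigenfunctions with separated frequencies decouple (MP_a28cf0_nt)

The setting is that of the library results on MP_4fa179_mp, MP_610fe3_mp and of
`Pool.Agent.Results.MP_4fa179_mp.LocalRigidity`: `HP` is the hyperbolic plane, `Ω ⊆ HP` an open set
of finite area (a chart of the surface `X`, for instance a fundamental domain), and the eigenfunctions
are smooth real functions on `HP` (the lifts of Maass forms), quantum ergodic over `Ω`. Hecke-Maass
cusp forms of `SL₂(ℤ)` are quantum ergodic by theorems of Lindenstrauss and Soundararajan. `MW` is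
the space of all smooth real `f` on the plane with `Δf + f = 0`. `jChar Ω ψ lam u w t` is the
characteristic function, with weight `ψ`, of the joint law of the rescaled functions
`w ↦ u_i (z + y λ_i^{-1/2} w)`, `i ≤ d`, each in its own scale, at finitely many points each, in one
random orthonormal frame, at a random point `z = x + i y` of `Ω`; `TF Ω ψ` are the test functions
`ψ` (smooth, compact support in `Ω`), and `LocalLaws Ω lam u m` says that the local laws of the
sequence `u` by itself converge to the measure `m` on `MW`.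

The problem asks for the joint value distribution of `I` orthogonal Hecke-Maass forms `f_1,…,f_I`.
The theorem is about `I = d + 1` sequences whose frequencies are separated (`λ_j / λ_i → 0` for
`i < j`; then `f_i`, `f_j` are orthogonal automatically). The question then splits into one question
for each form by itself: JOINT CONVERGENCE TO INDEPENDENT RANDOM WAVES HOLDS IF AND ONLY IF EACH FORM
BY ITSELF SATISFIES AN UPPER BOUND UP TO A CONSTANT IN ONE SMALL DISC, AND THE MIXED MOMENTS WITH ANY
TEST FUNCTION THEN CONVERGE WHENEVER MOMENTS OF SLIGHTLY HIGHER ORDER ARE BOUNDED. The mechanism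
needs no randomness of the limits beyond ergodicity: A FORM WITH AN ERGODIC LOCAL LIMIT IS
ASYMPTOTICALLY INDEPENDENT OF THE POSITION AND OF ALL FORMS OF LOWER FREQUENCY, WHATEVER THESE ARE.
(Some condition on the faster form is needed for such a statement: a fast form whose amplitude is
modulated by the slow one is correlated with it.)

Proof idea. Displacements by vectors of length `λ_i^{-1/2} x`, in the frame at `z`, do not change the
slower functions at their own scale (Caccioppoli inequality and quantum ergodicity: the rescaled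
functions have bounded energy) and nearly preserve the measure, also in the random frame; so the
joint law of `u_i` and of slower functions is asymptotically invariant under the translations of
`u_i` alone. A bounded function of position and slower forms has, as the frequency grows, a weak
limit `h` in `L²` of the local limit `m` of `u_i`, by Riesz' theorem; by the invariance all
`E_m (h̄ e^{iτ})` are invariant under translations, so `h` is an invariant function, hence constant
by ergodicity. The equivalence in (4) uses `LocalRigidity`.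
-/

set_option autoImplicit false
open MeasureTheory Filter Topology Complex ProbabilityTheory
open scoped ContDiff ENNReal

namespace Pool.Agent.Results.MP_a28cf0_nt.SeparatedFrequencies

open Pool.Agent.W745.RW (TF lap)
open Pool.Agent.N661.BR (MW lin IsErgodic IsRandomWave)
open Pool.Agent.N661.BH (HP area LocalLaws IsQuantumErgodic)
open Pool.Agent.H992.LB (locChar trigSum)
open Pool.Agent.H992.SF (jChar Separated)

/-- **Separated frequencies decouple.** Let `u_0, …, u_d` be sequences of real eigenfunctions on the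
hyperbolic plane with eigenvalues `λ_i → ∞`, quantum ergodic over the open set `Ω` of finite area,
and `λ_j / λ_i → 0` for `i < j`. (1) The joint local law of `u_{i₀}` and of slower functions (and
the position) is asymptotically invariant under the translations of `u_{i₀}` alone. (2) If for
`i < d` the local laws of `u_i` converge to an ergodic law `m_i`, then `u_0, …, u_{d-1}` are
asymptotically independent of each other, of the position and of the slowest function `u_d`, about
which nothing is assumed. (3) If this holds for all `i` then the joint local laws converge to the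
product of the `m_i`, at all positions. (4) Let `γ` be the law of the random wave `F_{unif,1}`. The
joint local laws converge to independent random waves if and only if for each `i` there is a
nonempty open set `U i` (any prescribed one) and a constant `C` such that the local means of all
trigonometric sums `T` in values of `u_i` at points of `U i` satisfy
`limsup |mean T|² ≤ C E_γ |T|²`. (5) In this case, for nonnegative `ψ`, the mixed moments
`∫ ψ ∏ u_i^{a_i} dμ` converge to `∏ C_{a_i} ∫ ψ dμ` if for some `q > ∑ a_i` the `q`-th moments of the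
`u_i` with weight `ψ` are bounded. -/
theorem result (d : ℕ) (Ω : Set ℂ) (hΩ : IsOpen Ω) (hHP : Ω ⊆ HP) (hne : Ω.Nonempty)
    (hA : IntegrableOn (fun z : ℂ => 1 / z.im ^ 2) Ω)
    (lam : Fin (d + 1) → ℕ → ℝ) (hpos : ∀ i n, 0 < lam i n)
    (hlam : ∀ i, Tendsto (lam i) atTop atTop)
    (hsep : ∀ i j, i < j → Tendsto (fun n => lam j n / lam i n) atTop (𝓝 0))
    (u : Fin (d + 1) → ℕ → ℂ → ℝ) (hu : ∀ i n, ContDiffOn ℝ ∞ (u i n) HP)
    (heq : ∀ i n, ∀ z ∈ HP, z.im ^ 2 * lap (u i n) z + lam i n * u i n z = 0)
    (hqe : ∀ i, IsQuantumErgodic Ω (lam i) (u i)) :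
    (∀ (i₀ : Fin (d + 1)) (ψ : ℂ → ℝ), TF Ω ψ → ∀ (k : ℕ) (w : Fin (d + 1) → Fin k → ℂ)
      (t : Fin (d + 1) → Fin k → ℝ) (x : ℂ), (∀ i, i < i₀ → t i = 0) →
      Tendsto (fun n => jChar Ω ψ (fun i => lam i n) (fun i => u i n)
          (Function.update w i₀ fun j => w i₀ j + x) t -
        jChar Ω ψ (fun i => lam i n) (fun i => u i n) w t) atTop (𝓝 0)) ∧
    (∀ m : Fin d → Measure MW, (∀ i, IsProbabilityMeasure (m i)) → (∀ i, IsErgodic (m i)) →
      (∀ i : Fin d, LocalLaws Ω (lam i.castSucc) (u i.castSucc) (m i)) →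
      ∀ ψ, TF Ω ψ → ∀ (k : ℕ) (w : Fin (d + 1) → Fin k → ℂ) (t : Fin (d + 1) → Fin k → ℝ),
      Tendsto (fun n => jChar Ω ψ (fun i => lam i n) (fun i => u i n) w t -
        (∏ i : Fin d, ∫ f, Complex.exp (I * (lin (w i.castSucc) (t i.castSucc) f : ℝ)) ∂(m i)) *
          jChar Ω ψ (fun _ : Fin 1 => lam (Fin.last d) n) (fun _ => u (Fin.last d) n)
            (fun _ => w (Fin.last d)) (fun _ => t (Fin.last d))) atTop (𝓝 0)) ∧
    (∀ m : Fin (d + 1) → Measure MW, (∀ i, IsProbabilityMeasure (m i)) →
      (∀ i, IsErgodic (m i)) → (∀ i, LocalLaws Ω (lam i) (u i) (m i)) →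
      ∀ ψ, TF Ω ψ → ∀ (k : ℕ) (w : Fin (d + 1) → Fin k → ℂ) (t : Fin (d + 1) → Fin k → ℝ),
      Tendsto (fun n => jChar Ω ψ (fun i => lam i n) (fun i => u i n) w t) atTop
        (𝓝 ((∏ i, ∫ f, Complex.exp (I * (lin (w i) (t i) f : ℝ)) ∂(m i)) *
          area Ω fun z => (ψ z : ℂ)))) ∧
    ∀ γ : Measure MW, IsProbabilityMeasure γ → IsRandomWave γ →
      ∀ U : Fin (d + 1) → Set ℂ, (∀ i, IsOpen (U i)) → (∀ i, (U i).Nonempty) →
      ((∀ i, ∃ C : ℝ, ∀ (n k : ℕ) (w : Fin k → ℂ) (t : Fin n → Fin k → ℝ) (c : Fin n → ℂ),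
          (∀ j, w j ∈ U i) → ∀ ε : ℝ, 0 < ε → ∀ᶠ l in atTop,
            ‖∑ m, c m * locChar Ω (lam i l) (u i l) w (t m)‖ ^ 2 ≤
              C * (∫ f, ‖trigSum w t c f‖ ^ 2 ∂γ) + ε) ↔
        ∀ ψ, TF Ω ψ → ∀ (k : ℕ) (w : Fin (d + 1) → Fin k → ℂ) (t : Fin (d + 1) → Fin k → ℝ),
          Tendsto (fun n => jChar Ω ψ (fun i => lam i n) (fun i => u i n) w t) atTop
            (𝓝 ((∏ i, ∫ f, Complex.exp (I * (lin (w i) (t i) f : ℝ)) ∂γ) *
              area Ω fun z => (ψ z : ℂ)))) ∧
      ((∀ i, ∃ C : ℝ, ∀ (n k : ℕ) (w : Fin k → ℂ) (t : Fin n → Fin k → ℝ) (c : Fin n → ℂ),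
          (∀ j, w j ∈ U i) → ∀ ε : ℝ, 0 < ε → ∀ᶠ l in atTop,
            ‖∑ m, c m * locChar Ω (lam i l) (u i l) w (t m)‖ ^ 2 ≤
              C * (∫ f, ‖trigSum w t c f‖ ^ 2 ∂γ) + ε) →
        ∀ ψ, TF Ω ψ → (∀ z, 0 ≤ ψ z) → ∀ a : Fin (d + 1) → ℕ,
          (∃ q C : ℝ, (∑ i, a i : ℕ) < q ∧ ∀ i, ∀ᶠ n in atTop,
            ∫ z in Ω, ψ z / z.im ^ 2 * |u i n z| ^ q ≤ C) →
          Tendsto (fun n => ∫ z in Ω, ψ z / z.im ^ 2 * ∏ i, u i n z ^ a i) atTop
            (𝓝 ((∏ i, ∫ x, x ^ a i ∂(gaussianReal 0 1)) * ∫ z in Ω, ψ z / z.im ^ 2))) :=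
  Pool.Agent.H992.SF.fin d Ω lam u
    (fun i => ⟨hΩ, hHP, hne, hA, hpos i, hlam i, hu i, heq i, hqe i⟩) hsep

end Pool.Agent.Results.MP_a28cf0_nt.SeparatedFrequencies
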